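import Pool.Agent.TH230.Aug.Defs

/-! Lemmas on the Riemann sphere for MP_21db80_an. -/

set_option autoImplicit false

open Set Topology Filter
open scoped OnePoint

noncomputable section

namespace Pool.Agent.TH230.Aug

/-! ### Homogeneous coordinates -/

/-- A lift to `ℂ²`. -/
def lift (p : Sph) : ℂ × ℂ := p.elim (1, 0) (fun z => (z, 1))

@[simp] lemma lift_coe (z : ℂ) : lift (z : Sph) = (z, 1) := rfl
@[simp] lemma lift_infty : lift (∞ : Sph) = (1, 0) := rfl

/-- Determinant. -/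
def D (u v : ℂ × ℂ) : ℂ := u.1 * v.2 - u.2 * v.1

lemma lift_ne (p : Sph) : lift p ≠ 0 := by
  induction p using OnePoint.rec with
  | infty => intro h; simpa using congrArg Prod.fst h
  | coe z => intro h; simpa using congrArg Prod.snd h

lemma D_lift_eq_zero {p q : Sph} : D (lift p) (lift q) = 0 ↔ p = q := by
  induction p using OnePoint.rec with
  | infty =>
    induction q using OnePoint.rec with
    | infty => simp [D]
    | coe w => simp [D]
  | coe z =>
    induction q using OnePoint.rec with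
    | infty => simp [D]
    | coe w => simp [D, sub_eq_zero]

lemma toSph_smul {c a b : ℂ} (hc : c ≠ 0) : toSph (c * a) (c * b) = toSph a b := by
  unfold toSph
  by_cases hb : b = 0
  · simp [hb]
  · rw [if_neg hb, if_neg (mul_ne_zero hc hb), mul_div_mul_left _ _ hc]

lemma toSph_lift (p : Sph) : toSph (lift p).1 (lift p).2 = p := by
  induction p using OnePoint.rec with
  | infty => simp [toSph]
  | coe z => simp [toSph]

lemma lift_toSph {a b : ℂ} (h : ¬ (a = 0 ∧ b = 0)) :
    ∃ c : ℂ, c ≠ 0 ∧ (a, b) = (c * (lift (toSph a b)).1, c * (lift (toSph a b)).2) := by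
  unfold toSph
  by_cases hb : b = 0
  · subst hb
    refine ⟨a, fun ha => h ⟨ha, rfl⟩, by simp⟩
  · refine ⟨b, hb, ?_⟩
    rw [if_neg hb]
    simp only [lift_coe, mul_one, Prod.mk.injEq, and_true]
    field_simp

lemma toSph_eq_iff {a b : ℂ} (h : ¬ (a = 0 ∧ b = 0)) (p : Sph) :
    toSph a b = p ↔ D (a, b) (lift p) = 0 := by
  obtain ⟨c, hc, hab⟩ := lift_toSph h
  constructor
  · intro h1
    rw [hab, h1]
    simp only [D]; ring
  · intro h1
    rw [hab] at h1
    have h2 : D (lift (toSph a b)) (lift p) = 0 := by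
      simp only [D] at h1 ⊢
      have : c * ((lift (toSph a b)).1 * (lift p).2 - (lift (toSph a b)).2 * (lift p).1) = 0 := by
        linear_combination h1
      exact (mul_eq_zero.1 this).resolve_left hc
    exact D_lift_eq_zero.1 h2

/-- The matrix acting on `ℂ²`. -/
def act (g : GL (Fin 2) ℂ) (u : ℂ × ℂ) : ℂ × ℂ :=
  (g 0 0 * u.1 + g 0 1 * u.2, g 1 0 * u.1 + g 1 1 * u.2)

lemma det_ne (g : GL (Fin 2) ℂ) : g 0 0 * g 1 1 - g 0 1 * g 1 0 ≠ 0 := by
  have := g.det_ne_zero
  rwa [Matrix.det_fin_two] at this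

lemma smul_eq (g : GL (Fin 2) ℂ) (p : Sph) :
    g • p = toSph (act g (lift p)).1 (act g (lift p)).2 := by
  induction p using OnePoint.rec with
  | infty => rw [OnePoint.smul_infty_eq_ite]; simp [act, toSph]
  | coe z => rw [OnePoint.smul_some_eq_ite]; simp [act, toSph]

lemma D_act (g : GL (Fin 2) ℂ) (u v : ℂ × ℂ) :
    D (act g u) (act g v) = (g 0 0 * g 1 1 - g 0 1 * g 1 0) * D u v := by
  simp only [D, act]; ring

lemma act_ne (g : GL (Fin 2) ℂ) {u : ℂ × ℂ} (hu : u ≠ 0) :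
    ¬ ((act g u).1 = 0 ∧ (act g u).2 = 0) := by
  rintro ⟨h1, h2⟩
  simp only [act] at h1 h2
  have hd := det_ne g
  apply hu
  have h3 : (g 0 0 * g 1 1 - g 0 1 * g 1 0) * u.1 = 0 := by
    linear_combination (g 1 1) * h1 - (g 0 1) * h2
  have h4 : (g 0 0 * g 1 1 - g 0 1 * g 1 0) * u.2 = 0 := by
    linear_combination (g 0 0) * h2 - (g 1 0) * h1
  exact Prod.ext ((mul_eq_zero.1 h3).resolve_left hd) ((mul_eq_zero.1 h4).resolve_left hd)

lemma lift_smul (g : GL (Fin 2) ℂ) (p : Sph) :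
    ∃ c : ℂ, c ≠ 0 ∧ act g (lift p) = (c * (lift (g • p)).1, c * (lift (g • p)).2) := by
  obtain ⟨c, hc, h⟩ := lift_toSph (act_ne g (lift_ne p))
  refine ⟨c, hc, ?_⟩
  rw [smul_eq]
  exact h

/-! ### Continuity -/

/-- Continuity of `toSph` at a pair of functions without common zero. -/
lemma continuousAt_toSph {T : Type*} [TopologicalSpace T] {a b : T → ℂ} {t : T}
    (ha : ContinuousAt a t) (hb : ContinuousAt b t) (h : ¬ (a t = 0 ∧ b t = 0)) :
    ContinuousAt (fun s => toSph (a s) (b s)) t := by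
  by_cases hbt : b t = 0
  · have hat : a t ≠ 0 := fun h' => h ⟨h', hbt⟩
    have h0 : toSph (a t) (b t) = ∞ := by simp [toSph, hbt]
    show Tendsto (fun s => toSph (a s) (b s)) (𝓝 t) (𝓝 (toSph (a t) (b t)))
    rw [h0]
    -- use a basis of neighbourhoods of infinity
    rw [OnePoint.hasBasis_nhds_infty.tendsto_right_iff]
    rintro K ⟨hK1, hK2⟩
    obtain ⟨R, hR⟩ := hK2.isBounded.exists_norm_le
    have hq : Tendsto (fun s => ‖b s‖ * (|R| + 1)) (𝓝 t) (𝓝 (‖b t‖ * (|R| + 1))) :=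
      (hb.norm).mul_const _
    rw [hbt, norm_zero, zero_mul] at hq
    have hlt : (0 : ℝ) < ‖a t‖ := norm_pos_iff.2 hat
    have h1 : ∀ᶠ s in 𝓝 t, ‖b s‖ * (|R| + 1) < ‖a s‖ :=
      hq.eventually_lt ha.norm hlt
    filter_upwards [h1] with s hs
    unfold toSph
    by_cases hbs : b s = 0
    · rw [if_pos hbs]; exact Or.inr rfl
    · rw [if_neg hbs]
      refine Or.inl ⟨_, ?_, rfl⟩
      intro hmem
      have h2 := hR _ hmem
      rw [norm_div, div_le_iff₀ (norm_pos_iff.2 hbs)] at h2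
      have h3 : R * ‖b s‖ ≤ ‖b s‖ * (|R| + 1) := by
        nlinarith [le_abs_self R, norm_nonneg (b s)]
      linarith
  · have h1 : ∀ᶠ s in 𝓝 t, b s ≠ 0 := hb.eventually_ne hbt
    have h2 : ContinuousAt (fun s => ((a s / b s : ℂ) : Sph)) t :=
      OnePoint.continuous_coe.continuousAt.comp (ha.div hb hbt)
    refine h2.congr ?_
    filter_upwards [h1] with s hs
    simp [toSph, hs]

/-- A lift that is continuous near the point `p`. -/
def liftAt (p : Sph) (q : Sph) : ℂ × ℂ := p.elim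
  (q.elim (1, 0) (fun z => if z = 0 then (0, 1) else (1, z⁻¹))) (fun _ => lift q)

lemma liftAt_self (p : Sph) : liftAt p p = lift p := by
  induction p using OnePoint.rec with
  | infty => rfl
  | coe z => rfl

lemma liftAt_spec (p q : Sph) : ∃ c : ℂ, c ≠ 0 ∧
    liftAt p q = (c * (lift q).1, c * (lift q).2) := by
  induction p using OnePoint.rec with
  | infty =>
    induction q using OnePoint.rec with
    | infty => exact ⟨1, one_ne_zero, by simp [liftAt]⟩
    | coe z =>
      by_cases hz : z = 0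
      · exact ⟨1, one_ne_zero, by simp [liftAt, hz]⟩
      · refine ⟨z⁻¹, inv_ne_zero hz, ?_⟩
        simp [liftAt, hz]
  | coe w => exact ⟨1, one_ne_zero, by simp [liftAt]⟩

lemma continuousAt_liftAt (p : Sph) : ContinuousAt (liftAt p) p := by
  induction p using OnePoint.rec with
  | infty =>
    rw [OnePoint.continuousAt_infty']
    have h1 : Tendsto (fun z : ℂ => ((1 : ℂ), z⁻¹)) (coclosedCompact ℂ) (𝓝 (1, 0)) := by
      rw [nhds_prod_eq]
      refine tendsto_const_nhds.prodMk ?_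
      rw [coclosedCompact_eq_cocompact]
      exact tendsto_inv₀_cobounded.comp (by rw [Metric.cobounded_eq_cocompact]; exact tendsto_id)
    have h2 : liftAt ∞ ∞ = ((1 : ℂ), (0 : ℂ)) := rfl
    rw [h2]
    refine h1.congr' ?_
    have h3 : ∀ᶠ z : ℂ in coclosedCompact ℂ, z ≠ 0 := by
      rw [coclosedCompact_eq_cocompact]
      exact (isCompact_singleton (x := (0 : ℂ))).compl_mem_cocompact
    filter_upwards [h3] with z hz
    simp [liftAt, hz]
  | coe w =>
    rw [OnePoint.continuousAt_coe]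
    have : (liftAt (w : Sph)) ∘ ((↑) : ℂ → Sph) = fun z => (z, (1 : ℂ)) := by
      funext z; rfl
    rw [this]
    exact (continuous_id.prodMk continuous_const).continuousAt

lemma continuous_smul_sph (g : GL (Fin 2) ℂ) : Continuous (fun p : Sph => g • p) := by
  rw [continuous_iff_continuousAt]
  intro p
  have h1 : ContinuousAt (fun q => act g (liftAt p q)) p := by
    have h2 := continuousAt_liftAt p
    have h3 : Continuous (act g) := by
      unfold act
      fun_prop
    exact h3.continuousAt.comp h2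
  have h4 : ContinuousAt (fun q => toSph (act g (liftAt p q)).1 (act g (liftAt p q)).2) p := by
    apply continuousAt_toSph h1.fst h1.snd
    rw [liftAt_self]
    exact act_ne g (lift_ne p)
  refine h4.congr (Eventually.of_forall fun q => ?_)
  obtain ⟨c, hc, h5⟩ := liftAt_spec p q
  show _ = g • q
  rw [smul_eq]
  have h6 : act g (liftAt p q) = (c * (act g (lift q)).1, c * (act g (lift q)).2) := by
    rw [h5]; simp only [act]; ext <;> simp <;> ring
  simp only [h6]
  rw [toSph_smul hc]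

/-! ### Harmonic quadruples -/

/-- The quadruple is harmonic: cross-ratio `-1`. -/
def Harm (t : Fin 4 → Sph) : Prop :=
  D (lift (t 2)) (lift (t 0)) * D (lift (t 3)) (lift (t 1)) +
    D (lift (t 2)) (lift (t 1)) * D (lift (t 3)) (lift (t 0)) = 0

lemma Harm_smul (g : GL (Fin 2) ℂ) (t : Fin 4 → Sph) :
    Harm (fun i => g • t i) ↔ Harm t := by
  choose c hc h using fun i => lift_smul g (t i)
  have hd := det_ne g
  have key : ∀ i j, D (lift (t i)) (lift (t j)) * (g 0 0 * g 1 1 - g 0 1 * g 1 0) =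
      c i * c j * D (lift (g • t i)) (lift (g • t j)) := by
    intro i j
    have h1 := D_act g (lift (t i)) (lift (t j))
    rw [h i, h j] at h1
    simp only [D] at h1 ⊢
    linear_combination -h1
  set d := g 0 0 * g 1 1 - g 0 1 * g 1 0 with hdd
  have e : (D (lift (t 2)) (lift (t 0)) * D (lift (t 3)) (lift (t 1)) +
      D (lift (t 2)) (lift (t 1)) * D (lift (t 3)) (lift (t 0))) * d ^ 2 =
      c 0 * c 1 * c 2 * c 3 *
      (D (lift (g • t 2)) (lift (g • t 0)) * D (lift (g • t 3)) (lift (g • t 1)) +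
      D (lift (g • t 2)) (lift (g • t 1)) * D (lift (g • t 3)) (lift (g • t 0))) := by
    have k20 := key 2 0
    have k31 := key 3 1
    have k21 := key 2 1
    have k30 := key 3 0
    calc _ = (D (lift (t 2)) (lift (t 0)) * d) * (D (lift (t 3)) (lift (t 1)) * d) +
        (D (lift (t 2)) (lift (t 1)) * d) * (D (lift (t 3)) (lift (t 0)) * d) := by ring
      _ = _ := by rw [k20, k31, k21, k30]; ring
  unfold Harm
  constructor
  · intro h1
    rw [h1, mul_zero] at e
    exact (mul_eq_zero.1 e).resolve_right (pow_ne_zero 2 hd)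
  · intro h1
    rw [h1, zero_mul] at e
    exact (mul_eq_zero.1 e.symm).resolve_left
      (mul_ne_zero (mul_ne_zero (mul_ne_zero (hc 0) (hc 1)) (hc 2)) (hc 3))

/-- Degenerate quadruples are not harmonic. -/
lemma not_Harm {t : Fin 4 → Sph} {i j : Fin 4} (hij : i ≠ j) (h : t i = t j)
    (hu : ∀ a b, a ≠ b → t a = t b → (a = i ∧ b = j) ∨ (a = j ∧ b = i)) : ¬ Harm t := by
  have nz : ∀ a b, t a ≠ t b → D (lift (t a)) (lift (t b)) ≠ 0 := fun a b h h' =>
    h (D_lift_eq_zero.1 h')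
  have z : ∀ a b, t a = t b → D (lift (t a)) (lift (t b)) = 0 := fun a b h =>
    D_lift_eq_zero.2 h
  have sw : ∀ u v, D u v = - D v u := by intro u v; simp only [D]; ring
  intro H
  unfold Harm at H
  have q20 := hu 2 0 (by decide)
  have q31 := hu 3 1 (by decide)
  have q21 := hu 2 1 (by decide)
  have q30 := hu 3 0 (by decide)
  have q10 := hu 1 0 (by decide)
  have q32 := hu 3 2 (by decide)
  have cases6 : (t 2 = t 0 ∧ t 2 ≠ t 1 ∧ t 3 ≠ t 0) ∨ (t 3 = t 1 ∧ t 2 ≠ t 1 ∧ t 3 ≠ t 0) ∨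
      (t 2 = t 1 ∧ t 2 ≠ t 0 ∧ t 3 ≠ t 1) ∨ (t 3 = t 0 ∧ t 2 ≠ t 0 ∧ t 3 ≠ t 1) ∨
      (t 0 = t 1 ∧ t 2 ≠ t 0 ∧ t 3 ≠ t 0) ∨ (t 3 = t 2 ∧ t 2 ≠ t 0 ∧ t 2 ≠ t 1) := by
    fin_cases i <;> fin_cases j <;> simp at hij h q20 q31 q21 q30 q10 q32 <;>
      first
      | exact Or.inl ⟨h, q21, q30⟩
      | exact Or.inl ⟨h.symm, q21, q30⟩
      | exact Or.inr (Or.inl ⟨h, q21, q30⟩)
      | exact Or.inr (Or.inl ⟨h.symm, q21, q30⟩)
      | exact Or.inr (Or.inr (Or.inl ⟨h, q20, q31⟩))
      | exact Or.inr (Or.inr (Or.inl ⟨h.symm, q20, q31⟩))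
      | exact Or.inr (Or.inr (Or.inr (Or.inl ⟨h, q20, q31⟩)))
      | exact Or.inr (Or.inr (Or.inr (Or.inl ⟨h.symm, q20, q31⟩)))
      | exact Or.inr (Or.inr (Or.inr (Or.inr (Or.inl ⟨h, q20, q30⟩))))
      | exact Or.inr (Or.inr (Or.inr (Or.inr (Or.inl ⟨h.symm, q20, q30⟩))))
      | exact Or.inr (Or.inr (Or.inr (Or.inr (Or.inr ⟨h, q20, q21⟩))))
      | exact Or.inr (Or.inr (Or.inr (Or.inr (Or.inr ⟨h.symm, q20, q21⟩))))
  rcases cases6 with ⟨h1, h2, h3⟩ | ⟨h1, h2, h3⟩ | ⟨h1, h2, h3⟩ | ⟨h1, h2, h3⟩ | ⟨h1, h2, h3⟩ |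
    ⟨h1, h2, h3⟩
  · rw [z _ _ h1, zero_mul, zero_add] at H
    exact mul_ne_zero (nz _ _ h2) (nz _ _ h3) H
  · rw [z _ _ h1, mul_zero, zero_add] at H
    exact mul_ne_zero (nz _ _ h2) (nz _ _ h3) H
  · rw [z _ _ h1, zero_mul, add_zero] at H
    exact mul_ne_zero (nz _ _ h2) (nz _ _ h3) H
  · rw [z _ _ h1, mul_zero, add_zero] at H
    exact mul_ne_zero (nz _ _ h2) (nz _ _ h3) H
  · rw [← h1] at H
    have : 2 * (D (lift (t 2)) (lift (t 0)) * D (lift (t 3)) (lift (t 0))) = 0 := by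
      linear_combination H
    exact mul_ne_zero two_ne_zero (mul_ne_zero (nz _ _ h2) (nz _ _ h3)) this
  · rw [h1] at H
    have : 2 * (D (lift (t 2)) (lift (t 0)) * D (lift (t 2)) (lift (t 1))) = 0 := by
      linear_combination H
    exact mul_ne_zero two_ne_zero (mul_ne_zero (nz _ _ h2) (nz _ _ h3)) this

/-- Neighbourhoods of a quadruple from neighbourhoods of the diagonal. -/
lemma exists_diag_nhd {t : Fin 4 → Sph} {S : Set (Fin 4 → Sph)} (h : S ∈ 𝓝 t) :
    ∃ W : Set (Sph × Sph), IsOpen W ∧ (∀ z, (z, z) ∈ W) ∧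
      ∀ t' : Fin 4 → Sph, (∀ i, (t' i, t i) ∈ W) → t' ∈ S := by
  rw [nhds_pi, Filter.mem_pi'] at h
  obtain ⟨I, O, hO, hOs⟩ := h
  refine ⟨⋂ i : Fin 4, ({p : Sph × Sph | p.2 ≠ t i} ∪ {p | p.1 ∈ interior (O i)}), ?_, ?_, ?_⟩
  · refine isOpen_iInter_of_finite fun i => ?_
    exact (isOpen_ne.preimage continuous_snd).union (isOpen_interior.preimage continuous_fst)
  · intro z
    rw [mem_iInter]
    intro i
    by_cases hz : z = t i
    · right
      show z ∈ interior (O i)
      rw [hz, mem_interior_iff_mem_nhds]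
      exact hO i
    · exact Or.inl hz
  · intro t' ht'
    apply hOs
    intro i _
    have h1 := mem_iInter.1 (ht' i) i
    rcases h1 with h1 | h1
    · exact absurd rfl h1
    · exact interior_subset h1

/-- Non harmonic quadruples form an open set. -/
lemma not_Harm_nhds {t : Fin 4 → Sph} (h : ¬ Harm t) : {t' | ¬ Harm t'} ∈ 𝓝 t := by
  have hc : ContinuousAt (fun t' : Fin 4 → Sph =>
      D (liftAt (t 2) (t' 2)) (liftAt (t 0) (t' 0)) * D (liftAt (t 3) (t' 3)) (liftAt (t 1) (t' 1)) +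
      D (liftAt (t 2) (t' 2)) (liftAt (t 1) (t' 1)) * D (liftAt (t 3) (t' 3)) (liftAt (t 0) (t' 0)))
      t := by
    have h1 : ∀ i, ContinuousAt (fun t' : Fin 4 → Sph => liftAt (t i) (t' i)) t := fun i =>
      (continuousAt_liftAt (t i)).comp (f := fun t' : Fin 4 → Sph => t' i)
        (continuous_apply i).continuousAt
    have h2 : ∀ i j, ContinuousAt (fun t' : Fin 4 → Sph =>
        D (liftAt (t i) (t' i)) (liftAt (t j) (t' j))) t := by
      intro i j
      unfold D
      exact ((h1 i).fst.mul (h1 j).snd).sub ((h1 i).snd.mul (h1 j).fst)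
    exact ((h2 2 0).mul (h2 3 1)).add ((h2 2 1).mul (h2 3 0))
  have hne : (D (liftAt (t 2) (t 2)) (liftAt (t 0) (t 0)) *
      D (liftAt (t 3) (t 3)) (liftAt (t 1) (t 1)) +
      D (liftAt (t 2) (t 2)) (liftAt (t 1) (t 1)) *
      D (liftAt (t 3) (t 3)) (liftAt (t 0) (t 0))) ≠ 0 := by
    simp only [liftAt_self]; exact h
  filter_upwards [hc.eventually_ne hne] with t' ht' hH
  apply ht'
  choose c hc0 hc1 using fun i => liftAt_spec (t i) (t' i)
  simp only [hc1]
  unfold Harm at hH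
  simp only [D] at hH ⊢
  linear_combination (c 0 * c 1 * c 2 * c 3) * hH

/-- Injective quadruples form an open set. -/
lemma injective_nhds {t : Fin 4 → Sph} (h : Function.Injective t) :
    {t' : Fin 4 → Sph | Function.Injective t'} ∈ 𝓝 t := by
  have h1 : ∀ i j, i ≠ j → {t' : Fin 4 → Sph | t' i ≠ t' j} ∈ 𝓝 t := by
    intro i j hij
    exact (isOpen_ne_fun (continuous_apply i) (continuous_apply j)).mem_nhds (h.ne hij)
  have h2 : ∀ᶠ t' in 𝓝 t, ∀ i j : Fin 4, i ≠ j → t' i ≠ t' j := by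
    rw [eventually_all]; intro i
    rw [eventually_all]; intro j
    by_cases hij : i = j
    · exact Eventually.of_forall fun _ h => absurd hij h
    · filter_upwards [h1 i j hij] with t' ht' _ using ht'
  filter_upwards [h2] with t' ht' i j hij
  by_contra hne
  exact ht' i j hne hij

end Pool.Agent.TH230.Aug
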