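import Pool.Agent.TH230.Aug.Rad

/-! The cube as an admissible map, for MP_21db80_an. -/

set_option autoImplicit false

open Set Topology Filter
open scoped OnePoint

noncomputable section

namespace Pool.Agent.TH230.Aug

lemma le_encard {n : ℕ} {S : Set Sph} (f : Fin n → Sph) (hf : Function.Injective f)
    (h : ∀ i, f i ∈ S) : (n : ℕ∞) ≤ S.encard := by
  have h1 : (range f).encard = n := by
    rw [← image_univ, hf.encard_image, encard_univ]
    simp
  rw [← h1]
  exact encard_le_encard (range_subset_iff.2 h)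

lemma isRational_cube : IsRational 3 cube := by
  refine ⟨Polynomial.X ^ 3, 1, ?_, ?_, ?_, ?_, ?_, ?_⟩
  · simp
  · simp
  · left; simp
  · exact isCoprime_one_right
  · intro z; simp [toSph]
  · simp only [Polynomial.coeff_X_pow, Polynomial.coeff_one]
    simp [toSph]

lemma homotopicToId_id : HomotopicToId (fun z => z) :=
  ⟨fun q => q.2, continuous_snd, fun _ => rfl, fun _ => rfl⟩

lemma cube_surj : Function.Surjective cube := by
  intro p
  induction p using OnePoint.rec with
  | infty => exact ⟨∞, rfl⟩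
  | coe z =>
    obtain ⟨w, hw⟩ := IsAlgClosed.exists_pow_nat_eq z (n := 3) (by norm_num)
    exact ⟨(w : Sph), by rw [cube_coe, hw]⟩

lemma cube_eq_z0 {p : Sph} : cube p = z0 ↔ p = z0 := by
  induction p using OnePoint.rec with
  | infty => simp
  | coe z => simp

lemma cube_eq_inf {p : Sph} : cube p = ∞ ↔ p = ∞ := by
  induction p using OnePoint.rec with
  | infty => simp
  | coe z => simp

/-- Local injectivity of the cube. -/
lemma cube_locInj {z : ℂ} (hz : z ≠ 0) : ∃ N ∈ 𝓝 (z : Sph), InjOn cube N := by
  have hr : 0 < ‖z‖ := norm_pos_iff.2 hz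
  refine ⟨((↑) : ℂ → Sph) '' Metric.ball z (‖z‖ / 4), ?_, ?_⟩
  · exact OnePoint.isOpenEmbedding_coe.isOpenMap.image_mem_nhds (Metric.ball_mem_nhds _ (by linarith))
  · rintro _ ⟨u, hu, rfl⟩ _ ⟨w, hw, rfl⟩ huw
    rw [cube_coe, cube_coe] at huw
    have h1 := OnePoint.coe_injective huw
    rw [mem_ball_iff_norm] at hu hw
    have h2 : (u - w) * (u ^ 2 + u * w + w ^ 2) = 0 := by linear_combination h1
    rcases mul_eq_zero.1 h2 with h3 | h3
    · rw [sub_eq_zero.1 h3]
    · exfalso
      set a := u - z with ha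
      set b := w - z with hb
      have h4 : 3 * z ^ 2 = -(3 * z * (a + b) + (a ^ 2 + a * b + b ^ 2)) := by
        linear_combination h3
      have h5 : ‖3 * z ^ 2‖ = 3 * ‖z‖ ^ 2 := by rw [norm_mul, norm_pow]; simp
      have h6 : ‖3 * z * (a + b) + (a ^ 2 + a * b + b ^ 2)‖ ≤
          3 * ‖z‖ * (‖a‖ + ‖b‖) + (‖a‖ ^ 2 + ‖a‖ * ‖b‖ + ‖b‖ ^ 2) := by
        refine (norm_add_le _ _).trans (add_le_add ?_ ?_)
        · rw [norm_mul, norm_mul]
          have : ‖(3 : ℂ)‖ = 3 := by simp
          rw [this]
          exact mul_le_mul_of_nonneg_left (norm_add_le _ _) (by positivity)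
        · refine (norm_add_le _ _).trans (add_le_add ((norm_add_le _ _).trans (add_le_add ?_ ?_)) ?_)
          · rw [norm_pow]
          · rw [norm_mul]
          · rw [norm_pow]
      rw [h4, norm_neg] at h5
      rw [h5] at h6
      have ha0 := norm_nonneg a
      have hb0 := norm_nonneg b
      nlinarith [mul_nonneg ha0 hb0, mul_nonneg hr.le ha0, mul_nonneg hr.le hb0]

theorem setting_cube : Setting A4 A4 cube (Homeomorph.refl Sph) where
  finA := finite_range _
  finB := finite_range _
  cardA := by
    have h := le_encard (S := A4) a4 a4_inj a4_mem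
    have hf : A4.Finite := finite_range _
    rw [← hf.cast_ncard_eq] at h
    have h' : 4 ≤ A4.ncard := by exact_mod_cast h
    omega
  cardB := by
    have h := le_encard (S := A4) a4 a4_inj a4_mem
    have hf : A4.Finite := finite_range _
    rw [← hf.cast_ncard_eq] at h
    have h' : 4 ≤ A4.ncard := by exact_mod_cast h
    omega
  cover := ⟨3, by norm_num, cube, isRational_cube, Homeomorph.refl Sph, homotopicToId_id,
    fun x => rfl⟩
  branch := by
    intro x hx
    by_cases h0 : x = z0
    · subst h0; exact ⟨0, by simp⟩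
    by_cases h1 : x = ∞
    · subst h1; exact ⟨1, by simp⟩
    · exfalso
      induction x using OnePoint.rec with
      | infty => exact h1 rfl
      | coe z =>
        have hz : z ≠ 0 := fun h => h0 (by rw [h])
        obtain ⟨N, hN, hi⟩ := cube_locInj hz
        exact hx N hN hi
  maps := by
    rintro a ⟨i, rfl⟩
    fin_cases i
    · exact ⟨0, by simp⟩
    · exact ⟨1, by simp⟩
    · exact ⟨2, by simp⟩
    · refine ⟨3, ?_⟩
      show ((-1 : ℂ) : Sph) = cube ((-1 : ℂ) : Sph)
      rw [cube_coe]
      norm_num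
  iota := homotopicToId_id
  iota_maps := fun a ha => ha

/-- The curves whose branches are all `0` or `∞`. -/
def Good (C : Nodal) : Prop := ∀ e s, (C.br e s).2 = z0 ∨ (C.br e s).2 = ∞

/-- The cube on every component. -/
def cubeMap (C : Nodal) (h : Good C) : C.Curve → C.Curve :=
  Quot.lift (fun p => C.pt p.1 (cube p.2)) (by
    rintro a b ⟨e, s, rfl, rfl⟩
    have h1 : ∀ e s, cube (C.br e s).2 = (C.br e s).2 := by
      intro e s
      rcases h e s with h | h
      · rw [h, cube_eq_z0]
      · rw [h, cube_eq_inf]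
    rw [h1, h1]
    exact Quot.sound ⟨e, s, rfl, rfl⟩)

lemma cubeMap_pt {C : Nodal} (h : Good C) (v : Fin C.nV) (z : Sph) :
    cubeMap C h (C.pt v z) = C.pt v (cube z) := rfl

lemma cubeMap_node {C : Nodal} (h : Good C) (e : Fin C.nE) :
    cubeMap C h (C.node e) = C.node e := by
  show C.pt (C.br e true).1 (cube (C.br e true).2) = C.pt (C.br e true).1 (C.br e true).2
  rcases h e true with h | h
  · rw [h]; congr 1; rw [cube_eq_z0]
  · rw [h]; congr 1

lemma fiber_three {C : Nodal} (h : Good C) (w : Fin C.nV) {z : Sph} (h0 : z ≠ z0) (h1 : z ≠ ∞) :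
    (cubeMap C h ⁻¹' {C.pt w z}).encard = 3 := by
  induction z using OnePoint.rec with
  | infty => exact absurd rfl h1
  | coe z =>
    have hz : z ≠ 0 := fun h => h0 (by rw [h])
    have hset : cubeMap C h ⁻¹' {C.pt w (z : Sph)} =
        (fun y : ℂ => C.pt w (y : Sph)) '' {y : ℂ | y ^ 3 = z} := by
      ext x
      constructor
      · intro hx
        obtain ⟨v, y, rfl⟩ := Nodal.exists_pt x
        have hx' : C.pt v (cube y) = C.pt w (z : Sph) := hx
        rw [Nodal.pt_eq] at hx'
        rcases hx' with ⟨rfl, h3⟩ | ⟨e, s, -, h3⟩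
        · induction y using OnePoint.rec with
          | infty => exact absurd h3 (OnePoint.infty_ne_coe _)
          | coe y => exact ⟨y, OnePoint.coe_injective h3, rfl⟩
        · exfalso
          rcases h e (!s) with h4 | h4 <;> rw [h3] at h4
          · exact h0 h4
          · exact h1 h4
      · rintro ⟨y, hy, rfl⟩
        show C.pt w (cube (y : Sph)) = C.pt w (z : Sph)
        rw [cube_coe, hy]
    rw [hset, InjOn.encard_image]
    · have h2 := ncard_roots_unity (n := 3) (by norm_num) hz
      have hf : {y : ℂ | y ^ 3 = z}.Finite := finite_of_ncard_ne_zero (by rw [h2]; norm_num)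
      rw [← hf.cast_ncard_eq, h2]; rfl
    · intro y hy y' hy' hyy
      simp only at hyy
      rw [Nodal.pt_eq] at hyy
      rcases hyy with ⟨-, h3⟩ | ⟨e, s, h3, -⟩
      · exact OnePoint.coe_injective h3
      · exfalso
        rcases h e s with h4 | h4 <;> rw [h3] at h4
        · have : y = 0 := OnePoint.coe_injective h4
          rw [this] at hy
          exact hz (by rw [← hy]; norm_num)
        · exact OnePoint.coe_ne_infty _ h4

instance (C : Nodal) : CompactSpace C.Curve := inferInstanceAs (CompactSpace (Quot C.Glue))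

theorem isAdmissible_cubeMap {C : Nodal} (h : Good C) (hT : Fin C.nE → T2Space C.Curve) :
    IsAdmissible C C (cubeMap C h) where
  cont := by
    apply Nodal.continuous_of
    intro v
    exact (Nodal.continuous_pt C v).comp continuous_cube
  surj := by
    intro y
    obtain ⟨v, z, rfl⟩ := Nodal.exists_pt y
    obtain ⟨w, rfl⟩ := cube_surj z
    exact ⟨C.pt v w, rfl⟩
  holo := fun v => ⟨v, 3, cube, isRational_cube, fun z => rfl⟩
  nodes := fun e => ⟨e, cubeMap_node h e⟩
  degree := by
    refine ⟨3, fun w => ?_⟩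
    refine Set.Finite.subset (s := {z0, ∞}) (by simp) ?_
    intro z hz
    by_contra hne
    simp only [mem_insert_iff, mem_singleton_iff, not_or] at hne
    exact hz (fiber_three h w hne.1 hne.2)
  nodeDegree := by
    intro e
    have := hT e
    refine ⟨3, fun N hN => ⟨N, hN, subset_rfl, ?_⟩⟩
    rw [cubeMap_node h e]
    have hF : IsClosedMap (cubeMap C h) := by
      have hc : Continuous (cubeMap C h) := by
        apply Nodal.continuous_of
        intro v
        exact (Nodal.continuous_pt C v).comp continuous_cube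
      exact hc.isClosedMap
    -- the fibre of the node
    have hfib : ∀ x, cubeMap C h x = C.node e → x = C.node e := by
      intro x hx
      obtain ⟨v, z, rfl⟩ := Nodal.exists_pt x
      rw [cubeMap_pt, Nodal.pt_eq_node] at hx
      rw [Nodal.pt_eq_node]
      obtain ⟨s, hs⟩ := hx
      refine ⟨s, ?_⟩
      rcases h e s with h4 | h4
      · rw [hs] at h4
        rw [hs]
        simp only at h4
        rw [cube_eq_z0] at h4
        rw [h4, (cube_eq_z0 (p := z0)).2 rfl]
      · rw [hs] at h4
        rw [hs]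
        simp only at h4
        rw [cube_eq_inf] at h4
        rw [h4, cube_infty]
    have hV : (cubeMap C h '' (interior N)ᶜ)ᶜ ∈ 𝓝 (C.node e) := by
      refine (hF _ isOpen_interior.isClosed_compl).isOpen_compl.mem_nhds ?_
      rintro ⟨x, hx, hx'⟩
      rw [hfib x hx'] at hx
      exact hx (mem_interior_iff_mem_nhds.2 hN)
    let S : Set C.Curve := (range fun v => C.pt v z0) ∪ (range fun v => C.pt v ∞)
    have hS : S.Finite := (finite_range _).union (finite_range _)
    have hS' : (S \ {C.node e})ᶜ ∈ 𝓝 (C.node e) :=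
      (hS.subset sdiff_subset).isClosed.isOpen_compl.mem_nhds (by simp)
    have h1 : ∀ᶠ y in 𝓝[≠] (C.node e), y ∈ (cubeMap C h '' (interior N)ᶜ)ᶜ ∧
        y ∈ (S \ {C.node e})ᶜ := by
      apply Filter.Eventually.filter_mono nhdsWithin_le_nhds
      filter_upwards [hV, hS'] with y a b using ⟨a, b⟩
    filter_upwards [h1, self_mem_nhdsWithin] with y hy hyn
    have h2 : y ∉ S := fun h' => hy.2 ⟨h', hyn⟩
    have h3 : cubeMap C h ⁻¹' {y} ∩ N = cubeMap C h ⁻¹' {y} := by
      rw [inter_eq_left]
      intro x hx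
      by_contra hxN
      exact hy.1 ⟨x, fun hx' => hxN (interior_subset hx'), hx⟩
    rw [h3]
    obtain ⟨v, z, rfl⟩ := Nodal.exists_pt y
    refine fiber_three h v ?_ ?_
    · rintro rfl; exact h2 (Or.inl ⟨v, rfl⟩)
    · rintro rfl; exact h2 (Or.inr ⟨v, rfl⟩)

lemma isContraction_id (C : Nodal) : IsContraction C C id where
  cont := continuous_id
  comp := fun v => Or.inr ⟨v, 1, fun z => by simp⟩
  bij := by
    intro w
    refine ⟨w, ⟨1, fun z => by simp⟩, ?_⟩
    rintro v ⟨g, hg⟩
    by_contra hne
    have h1 : ∀ z, ∃ p : Fin C.nE × Bool, C.br p.1 p.2 = (v, z) := by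
      intro z
      have h2 : C.pt v z = C.pt w (g • z) := hg z
      rw [Nodal.pt_eq] at h2
      rcases h2 with h2 | ⟨e, s, h2, -⟩
      · exact absurd h2.1 hne
      · exact ⟨(e, s), h2⟩
    choose p hp using h1
    have hinj : Function.Injective p := by
      intro z z' hz
      have h3 := hp z
      rw [hz, hp z'] at h3
      exact (Prod.ext_iff.1 h3).2.symm
    have : Infinite Sph := inferInstance
    exact not_injective_infinite_finite p hinj

lemma isStabilization_of_isotopic {σ : SMark A4} {ψ : Sph → σ.C.Curve}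
    (h : IsotopicRel A4 σ.C ψ σ.φ) : IsStabilization A4 σ.C ψ σ := by
  obtain ⟨H, h1, h2, h3, h4, h5⟩ := h
  exact ⟨id, isContraction_id _, H, h1, h2, h3, fun t _ => h4 t, h5⟩

lemma isotopicRel_refl {C : Nodal} {φ : Sph → C.Curve} (h : IsMarking A4 C φ) :
    IsotopicRel A4 C φ φ :=
  ⟨fun q => φ q.2, h.cont.comp continuous_snd, fun _ => rfl, fun _ => rfl, fun _ => h,
    fun _ _ _ => rfl⟩

end Pool.Agent.TH230.Aug
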