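import Pool.Agent.TH230.Aug.NodalLem

/-! The algebraic lemma for MP_21db80_an. -/

set_option autoImplicit false

open Set Topology Filter
open scoped OnePoint

noncomputable section

namespace Pool.Agent.TH230.Aug

/-- The cube map of the sphere. -/
def cube (p : Sph) : Sph := p.elim ∞ (fun z => ((z ^ 3 : ℂ) : Sph))

@[simp] lemma cube_coe (z : ℂ) : cube (z : Sph) = ((z ^ 3 : ℂ) : Sph) := rfl
@[simp] lemma cube_infty : cube ∞ = ∞ := rfl

/-- The four marked points `0, ∞, 1, -1`. -/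
def a4 : Fin 4 → Sph := ![((0 : ℂ) : Sph), ∞, ((1 : ℂ) : Sph), ((-1 : ℂ) : Sph)]

@[simp] lemma a4_0 : a4 0 = ((0 : ℂ) : Sph) := rfl
@[simp] lemma a4_1 : a4 1 = ∞ := rfl
@[simp] lemma a4_2 : a4 2 = ((1 : ℂ) : Sph) := rfl
@[simp] lemma a4_3 : a4 3 = ((-1 : ℂ) : Sph) := rfl

/-- The Möbius transformation sending `p` to `0` and `q` to `∞`. -/
def norm2 (p q : Sph) (h : p ≠ q) : GL (Fin 2) ℂ :=
  Matrix.GeneralLinearGroup.mkOfDetNeZero
    !![(lift p).2, -(lift p).1; (lift q).2, -(lift q).1] (by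
      rw [Matrix.det_fin_two_of]
      have h1 : D (lift p) (lift q) ≠ 0 := fun h' => h (D_lift_eq_zero.1 h')
      intro h2; apply h1; simp only [D]; linear_combination h2)

lemma act_norm2 (p q : Sph) (h : p ≠ q) (u : ℂ × ℂ) :
    act (norm2 p q h) u = (D u (lift p), D u (lift q)) := by
  simp only [act, norm2, D, Matrix.GeneralLinearGroup.mkOfDetNeZero]
  simp
  constructor <;> ring

lemma norm2_left (p q : Sph) (h : p ≠ q) : norm2 p q h • p = ((0 : ℂ) : Sph) := by
  rw [smul_eq, act_norm2]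
  have h1 : D (lift p) (lift q) ≠ 0 := fun h' => h (D_lift_eq_zero.1 h')
  have h0 : D (lift p) (lift p) = 0 := D_lift_eq_zero.2 rfl
  simp [toSph, h1, h0]

lemma norm2_right (p q : Sph) (h : p ≠ q) : norm2 p q h • q = ∞ := by
  rw [smul_eq, act_norm2]
  have h0 : D (lift q) (lift q) = 0 := D_lift_eq_zero.2 rfl
  simp [toSph, h0]

/-- The lift of a rational function. -/
def ghat (n : ℕ) (P Q : Polynomial ℂ) (p : Sph) : ℂ × ℂ :=
  p.elim (P.coeff n, Q.coeff n) (fun z => (P.eval z, Q.eval z))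

lemma ghat_ne {n : ℕ} {P Q : Polynomial ℂ} (h1 : P.coeff n ≠ 0 ∨ Q.coeff n ≠ 0)
    (h2 : IsCoprime P Q) (p : Sph) : ¬ ((ghat n P Q p).1 = 0 ∧ (ghat n P Q p).2 = 0) := by
  induction p using OnePoint.rec with
  | infty => rintro ⟨h3, h4⟩; rcases h1 with h1 | h1 <;> [exact h1 h3; exact h1 h4]
  | coe z =>
    rintro ⟨h3, h4⟩
    obtain ⟨a, b, hab⟩ := h2
    have h3' : P.eval z = 0 := h3
    have h4' : Q.eval z = 0 := h4
    have := congrArg (Polynomial.eval z) hab
    simp [h3', h4'] at this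

/-- Total ramification. -/
lemma tot {n : ℕ} (hn : 1 ≤ n) {P Q : Polynomial ℂ} (hP : P.natDegree ≤ n) (hQ : Q.natDegree ≤ n)
    (h1 : P.coeff n ≠ 0 ∨ Q.coeff n ≠ 0) (h2 : IsCoprime P Q) {G : Sph → Sph}
    (hG : ∀ p, G p = toSph (ghat n P Q p).1 (ghat n P Q p).2) {s t : Sph}
    (hst : ∀ z, G z = t ↔ z = s) :
    ∃ K : ℂ, K ≠ 0 ∧ ∀ z : Sph, D (ghat n P Q z) (lift t) = K * D (lift z) (lift s) ^ n := by
  set T : Polynomial ℂ := Polynomial.C (lift t).2 * P - Polynomial.C (lift t).1 * Q with hT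
  have hTdeg : T.natDegree ≤ n := by
    refine (Polynomial.natDegree_sub_le _ _).trans (max_le ?_ ?_)
    · exact (Polynomial.natDegree_C_mul_le _ _).trans hP
    · exact (Polynomial.natDegree_C_mul_le _ _).trans hQ
  have hTe : ∀ z : ℂ, D (ghat n P Q z) (lift t) = T.eval z := by
    intro z
    simp only [hT, D, ghat, OnePoint.elim_some, Polynomial.eval_sub, Polynomial.eval_mul,
      Polynomial.eval_C]
    ring
  have hTc : D (ghat n P Q ∞) (lift t) = T.coeff n := by
    simp only [hT, D, ghat, OnePoint.elim_infty, Polynomial.coeff_sub, Polynomial.coeff_C_mul]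
    ring
  have hz : ∀ z, D (ghat n P Q z) (lift t) = 0 ↔ z = s := by
    intro z
    rw [← hst z, hG z, toSph_eq_iff (ghat_ne h1 h2 z)]
  induction s using OnePoint.rec with
  | infty =>
    have hroot : ∀ z : ℂ, T.eval z ≠ 0 := by
      intro z hz0
      rw [← hTe, hz] at hz0
      exact OnePoint.coe_ne_infty z hz0
    have hdeg : T.degree = 0 := by
      by_contra hne
      obtain ⟨z, hz1⟩ := IsAlgClosed.exists_root T hne
      exact hroot z hz1
    rw [Polynomial.eq_C_of_degree_eq_zero hdeg] at hTe hTc hroot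
    set k := T.coeff 0
    have hk : k ≠ 0 := by simpa using hroot 0
    refine ⟨k * (-1) ^ n, mul_ne_zero hk (pow_ne_zero _ (by norm_num)), ?_⟩
    intro z
    induction z using OnePoint.rec with
    | infty =>
      rw [(hz ∞).2 rfl, D_lift_eq_zero.2 rfl, zero_pow (by omega), mul_zero]
    | coe z =>
      rw [hTe]
      simp only [Polynomial.eval_C, D, lift_coe, lift_infty, mul_zero, one_mul, zero_sub]
      rw [mul_assoc, ← mul_pow]; simp
  | coe w =>
    have hc : T.coeff n ≠ 0 := by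
      rw [← hTc, Ne, hz]; exact OnePoint.infty_ne_coe w
    have hT0 : T ≠ 0 := fun h => hc (by rw [h]; simp)
    have hdeg : T.natDegree = n := le_antisymm hTdeg (Polynomial.le_natDegree_of_ne_zero hc)
    have hroots : T.roots = Multiset.replicate n w := by
      rw [Multiset.eq_replicate]
      constructor
      · rw [← hdeg]
        exact (IsAlgClosed.splits T).natDegree_eq_card_roots.symm
      · intro b hb
        rw [Polynomial.mem_roots hT0, Polynomial.IsRoot.def, ← hTe, hz] at hb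
        exact OnePoint.coe_injective hb
    have hfac : T = Polynomial.C T.leadingCoeff * (Polynomial.X - Polynomial.C w) ^ n := by
      conv_lhs => rw [(IsAlgClosed.splits T).eq_prod_roots]
      rw [hroots]; simp
    refine ⟨T.leadingCoeff, Polynomial.leadingCoeff_ne_zero.2 hT0, ?_⟩
    intro z
    induction z using OnePoint.rec with
    | infty =>
      rw [hTc]
      simp only [Polynomial.leadingCoeff, hdeg, D, lift_infty, lift_coe]
      simp
    | coe z =>
      rw [hTe, hfac]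
      simp [D]

lemma ncard_roots_unity {n : ℕ} (hn : 1 ≤ n) {c : ℂ} (hc : c ≠ 0) :
    {z : ℂ | z ^ n = c}.ncard = n := by
  obtain ⟨b, hb⟩ := IsAlgClosed.exists_pow_nat_eq c (by omega : 0 < n)
  have hb0 : b ≠ 0 := by
    rintro rfl
    rw [zero_pow (by omega)] at hb
    exact hc hb.symm
  have hprim := Complex.isPrimitiveRoot_exp n (by omega)
  haveI : NeZero n := ⟨by omega⟩
  have h1 : {z : ℂ | z ^ n = c} = (fun i : ℕ => b * Complex.exp (2 * Real.pi * Complex.I / n) ^ i) ''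
      (Finset.range n : Set ℕ) := by
    ext z
    simp only [mem_setOf_eq, mem_image, Finset.coe_range, mem_Iio]
    constructor
    · intro hz
      have h2 : (z / b) ^ n = 1 := by rw [div_pow, hz, hb, div_self hc]
      obtain ⟨i, hi, h3⟩ := hprim.eq_pow_of_pow_eq_one h2
      exact ⟨i, hi, by rw [h3]; field_simp⟩
    · rintro ⟨i, hi, rfl⟩
      rw [mul_pow, hb, ← pow_mul, mul_comm i n, pow_mul, hprim.pow_eq_one]; simp
  rw [h1, Set.ncard_image_of_injOn]
  · rw [Set.ncard_coe_finset]; simp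
  · intro i hi j hj hij
    simp only [Finset.coe_range, mem_Iio] at hi hj
    exact hprim.pow_inj hi hj (mul_left_cancel₀ hb0 hij)

/-- The algebraic lemma. -/
theorem harm_of_cube {n : ℕ} {G : Sph → Sph} (hG : IsRational n G) {ψ φ : Sph → Sph}
    (hψ : Function.Bijective ψ) (hφ : Function.Bijective φ) (h : ∀ x, G (ψ x) = φ (cube x))
    (k : GL (Fin 2) ℂ) (hk : ∀ i, ψ (a4 i) = k • φ (a4 i)) : Harm (fun i => φ (a4 i)) := by
  obtain ⟨P, Q, hP, hQ, h1, h2, h3, h4⟩ := hG
  have hGh : ∀ p, G p = toSph (ghat n P Q p).1 (ghat n P Q p).2 := by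
    intro p
    induction p using OnePoint.rec with
    | infty => exact h4
    | coe z => exact h3 z
  have hn : 1 ≤ n := by
    by_contra hn0
    have hn0 : n = 0 := by omega
    subst hn0
    have hPc := Polynomial.eq_C_of_natDegree_le_zero hP
    have hQc := Polynomial.eq_C_of_natDegree_le_zero hQ
    have e0 := h (a4 0)
    have e2 := h (a4 2)
    have g0 : ∀ p, G p = toSph (P.coeff 0) (Q.coeff 0) := by
      intro p
      rw [hGh]
      induction p using OnePoint.rec with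
      | infty => rfl
      | coe z =>
        show toSph (P.eval z) (Q.eval z) = _
        rw [hPc, hQc]; simp
    rw [g0] at e0 e2
    have := hφ.1 (e0.symm.trans e2)
    simp at this
  have c0 : ∀ x, cube x = ((0 : ℂ) : Sph) ↔ x = ((0 : ℂ) : Sph) := by
    intro x
    induction x using OnePoint.rec with
    | infty => simp
    | coe z => simp
  have ci : ∀ x, cube x = ∞ ↔ x = ∞ := by
    intro x
    induction x using OnePoint.rec with
    | infty => simp
    | coe z => simp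
  have hst0 : ∀ z, G z = φ ((0 : ℂ) : Sph) ↔ z = ψ ((0 : ℂ) : Sph) := by
    intro z
    obtain ⟨x, rfl⟩ := hψ.2 z
    rw [h, hφ.1.eq_iff, c0, hψ.1.eq_iff]
  have hsti : ∀ z, G z = φ ∞ ↔ z = ψ ∞ := by
    intro z
    obtain ⟨x, rfl⟩ := hψ.2 z
    rw [h, hφ.1.eq_iff, ci, hψ.1.eq_iff]
  obtain ⟨K0, hK0, hK0'⟩ := tot hn hP hQ h1 h2 hGh hst0
  obtain ⟨Ki, hKi, hKi'⟩ := tot hn hP hQ h1 h2 hGh hsti
  have hsne : ψ ((0 : ℂ) : Sph) ≠ ψ ∞ := hψ.1.ne (OnePoint.coe_ne_infty _)
  have htne : φ ((0 : ℂ) : Sph) ≠ φ ∞ := hφ.1.ne (OnePoint.coe_ne_infty _)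
  set g := norm2 _ _ hsne with hg
  set l := norm2 _ _ htne with hl
  have Ψ0 : g • ψ ((0 : ℂ) : Sph) = ((0 : ℂ) : Sph) := norm2_left _ _ _
  have Ψi : g • ψ ∞ = ∞ := norm2_right _ _ _
  have Φ0 : l • φ ((0 : ℂ) : Sph) = ((0 : ℂ) : Sph) := norm2_left _ _ _
  have Φi : l • φ ∞ = ∞ := norm2_right _ _ _
  -- finite values
  have fin1 : ∀ x : ℂ, ∃ w : ℂ, g • ψ (x : Sph) = (w : Sph) := by
    intro x
    have : g • ψ (x : Sph) ≠ ∞ := by
      intro h'
      rw [← Ψi] at h'
      exact OnePoint.coe_ne_infty x (hψ.1 (MulAction.injective g h'))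
    obtain ⟨w, hw⟩ := OnePoint.ne_infty_iff_exists.1 this
    exact ⟨w, hw.symm⟩
  have fin2 : ∀ x : ℂ, ∃ w : ℂ, l • φ (x : Sph) = (w : Sph) := by
    intro x
    have : l • φ (x : Sph) ≠ ∞ := by
      intro h'
      rw [← Φi] at h'
      exact OnePoint.coe_ne_infty x (hφ.1 (MulAction.injective l h'))
    obtain ⟨w, hw⟩ := OnePoint.ne_infty_iff_exists.1 this
    exact ⟨w, hw.symm⟩
  choose ψ₁ hψ₁ using fin1
  choose φ₁ hφ₁ using fin2
  have ψ₁inj : Function.Injective ψ₁ := by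
    intro x y hxy
    have : g • ψ (x : Sph) = g • ψ (y : Sph) := by rw [hψ₁, hψ₁, hxy]
    exact OnePoint.coe_injective (hψ.1 (MulAction.injective g this))
  have φ₁inj : Function.Injective φ₁ := by
    intro x y hxy
    have : l • φ (x : Sph) = l • φ (y : Sph) := by rw [hφ₁, hφ₁, hxy]
    exact OnePoint.coe_injective (hφ.1 (MulAction.injective l this))
  have ψ₁surj : Function.Surjective ψ₁ := by
    intro w
    obtain ⟨x, hx⟩ := hψ.2 (g⁻¹ • (w : Sph))
    have hx' : g • ψ x = (w : Sph) := by rw [hx, smul_inv_smul]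
    induction x using OnePoint.rec with
    | infty => rw [Ψi] at hx'; exact absurd hx'.symm (OnePoint.coe_ne_infty w)
    | coe x => exact ⟨x, OnePoint.coe_injective ((hψ₁ x).symm.trans hx')⟩
  have ψ₁0 : ψ₁ 0 = 0 := OnePoint.coe_injective ((hψ₁ 0).symm.trans Ψ0)
  have φ₁0 : φ₁ 0 = 0 := OnePoint.coe_injective ((hφ₁ 0).symm.trans Φ0)
  -- the relation
  have rel : ∀ x : ℂ, φ₁ (x ^ 3) = (K0 / Ki) * ψ₁ x ^ n := by
    intro x
    have e1 : l • G (ψ (x : Sph)) = ((φ₁ (x ^ 3) : ℂ) : Sph) := by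
      rw [h, cube_coe, hφ₁]
    set p := ψ (x : Sph) with hp
    have e2 : ((ψ₁ x : ℂ) : Sph) = toSph (D (lift p) (lift (ψ ((0 : ℂ) : Sph))))
        (D (lift p) (lift (ψ ∞))) := by
      rw [← hψ₁, ← hp, smul_eq, hg, act_norm2]
    have hD : D (lift p) (lift (ψ ∞)) ≠ 0 := by
      intro h'
      rw [D_lift_eq_zero] at h'
      exact OnePoint.coe_ne_infty x (hψ.1 h')
    have e3 : ψ₁ x = D (lift p) (lift (ψ ((0 : ℂ) : Sph))) / D (lift p) (lift (ψ ∞)) := by
      unfold toSph at e2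
      rw [if_neg hD] at e2
      exact OnePoint.coe_injective e2
    obtain ⟨c, hc, hc'⟩ := lift_toSph (ghat_ne h1 h2 p)
    rw [← hGh p] at hc'
    have e4 : l • G p = toSph (D (ghat n P Q p) (lift (φ ((0 : ℂ) : Sph))))
        (D (ghat n P Q p) (lift (φ ∞))) := by
      rw [smul_eq, hl, act_norm2]
      have : ghat n P Q p = (c * (lift (G p)).1, c * (lift (G p)).2) := hc'
      rw [this]
      have f1 : ∀ q, D (c * (lift (G p)).1, c * (lift (G p)).2) q = c * D (lift (G p)) q := by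
        intro q; simp only [D]; ring
      rw [f1, f1, toSph_smul hc]
    rw [hK0', hKi'] at e4
    rw [e4] at e1
    have hD' : Ki * D (lift p) (lift (ψ ∞)) ^ n ≠ 0 := mul_ne_zero hKi (pow_ne_zero _ hD)
    unfold toSph at e1
    rw [if_neg hD'] at e1
    rw [← OnePoint.coe_injective e1, e3, div_pow]
    field_simp
  set K := K0 / Ki with hK
  have hKne : K ≠ 0 := div_ne_zero hK0 hKi
  -- the degree is three
  have hφ1 : φ₁ 1 ≠ 0 := by
    intro h'; rw [← φ₁0] at h'; exact one_ne_zero (φ₁inj h')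
  have hn3 : n = 3 := by
    have e1 : ψ₁ '' {x : ℂ | x ^ 3 = 1} = {z : ℂ | z ^ n = φ₁ 1 / K} := by
      ext z
      simp only [mem_image, mem_setOf_eq]
      constructor
      · rintro ⟨x, hx, rfl⟩
        have := rel x
        rw [hx] at this
        rw [this]; field_simp
      · intro hz
        obtain ⟨x, rfl⟩ := ψ₁surj z
        refine ⟨x, ?_, rfl⟩
        have := rel x
        rw [hz, mul_div_cancel₀ _ hKne] at this
        exact φ₁inj this
    have e2 := congrArg Set.ncard e1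
    rw [Set.ncard_image_of_injective _ ψ₁inj, ncard_roots_unity (by norm_num) one_ne_zero,
      ncard_roots_unity hn (div_ne_zero hφ1 hKne)] at e2
    exact e2.symm
  subst hn3
  -- the Möbius transformation `g k l⁻¹` fixes zero and infinity
  set M := g * k * l⁻¹ with hM
  have hMx : ∀ i, g • ψ (a4 i) = M • (l • φ (a4 i)) := by
    intro i
    rw [hk i, hM, mul_smul, mul_smul, inv_smul_smul]
  have M0 : M • ((0 : ℂ) : Sph) = ((0 : ℂ) : Sph) := by
    have := hMx 0; rw [a4_0, Ψ0, Φ0] at this; exact this.symm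
  have Mi : M • (∞ : Sph) = ∞ := by
    have := hMx 1; rw [a4_1, Ψi, Φi] at this; exact this.symm
  rw [OnePoint.smul_infty_eq_self_iff] at Mi
  have hdM := det_ne M
  rw [Mi, mul_zero, sub_zero] at hdM
  have hM11 : M 1 1 ≠ 0 := right_ne_zero_of_mul hdM
  have hM00 : M 0 0 ≠ 0 := left_ne_zero_of_mul hdM
  have hMz : ∀ z : ℂ, M • (z : Sph) = (((M 0 0 * z + M 0 1) / M 1 1 : ℂ) : Sph) := by
    intro z
    rw [OnePoint.smul_some_eq_ite, Mi, zero_mul, zero_add, if_neg hM11]
  have hM01 : M 0 1 = 0 := by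
    rw [hMz] at M0
    have := OnePoint.coe_injective M0
    rw [mul_zero, zero_add, div_eq_zero_iff] at this
    exact this.resolve_right hM11
  have r2 : ψ₁ 1 = M 0 0 / M 1 1 * φ₁ 1 := by
    have := hMx 2
    rw [a4_2, hψ₁, hφ₁, hMz, hM01] at this
    rw [OnePoint.coe_injective this]; field_simp; ring
  have r3 : ψ₁ (-1) = M 0 0 / M 1 1 * φ₁ (-1) := by
    have := hMx 3
    rw [a4_3, hψ₁, hφ₁, hMz, hM01] at this
    rw [OnePoint.coe_injective this]; field_simp; ring
  set lam := M 0 0 / M 1 1 with hlam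
  have hlamne : lam ≠ 0 := div_ne_zero hM00 hM11
  have s2 := rel 1
  have s3 := rel (-1)
  rw [r2] at s2
  rw [r3] at s3
  have hφm : φ₁ (-1) ≠ 0 := by
    intro h'; rw [← φ₁0] at h'
    have := φ₁inj h'
    norm_num at this
  have hne : φ₁ 1 ≠ φ₁ (-1) := by
    intro h'
    have := φ₁inj h'
    norm_num at this
  have e1 : (1 : ℂ) ^ 3 = 1 := by norm_num
  have e2 : (-1 : ℂ) ^ 3 = -1 := by norm_num
  rw [e1] at s2
  rw [e2] at s3
  have q2 : K * lam ^ 3 * φ₁ 1 ^ 2 = 1 := by
    have : φ₁ 1 * (K * lam ^ 3 * φ₁ 1 ^ 2 - 1) = 0 := by linear_combination -s2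
    have := (mul_eq_zero.1 this).resolve_left hφ1
    linear_combination this
  have q3 : K * lam ^ 3 * φ₁ (-1) ^ 2 = 1 := by
    have : φ₁ (-1) * (K * lam ^ 3 * φ₁ (-1) ^ 2 - 1) = 0 := by linear_combination -s3
    have := (mul_eq_zero.1 this).resolve_left hφm
    linear_combination this
  have hsum : φ₁ (-1) = - φ₁ 1 := by
    have h5 : K * lam ^ 3 * ((φ₁ 1 - φ₁ (-1)) * (φ₁ 1 + φ₁ (-1))) = 0 := by
      linear_combination q2 - q3
    have h6 := (mul_eq_zero.1 h5).resolve_left (mul_ne_zero hKne (pow_ne_zero _ hlamne))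
    have h7 := (mul_eq_zero.1 h6).resolve_left (sub_ne_zero.2 hne)
    linear_combination h7
  rw [← Harm_smul l]
  unfold Harm
  simp only [a4_0, a4_1, a4_2, a4_3, Φ0, Φi, hφ₁, hsum]
  simp [D]

end Pool.Agent.TH230.Aug
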