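import Mathlib

/-!
# Augmented Teichmüller spaces of marked spheres and augmented deformation spaces

Definitions for MP_21db80_an. The sphere `S²` is `ℂ ∪ {∞}`, which is also the Riemann sphere `ℙ¹`.

* `Nodal` : a simply connected nodal curve all of whose components are Riemann spheres, i.e. a tree
  of Riemann spheres glued at nodes; `Nodal.Curve` is its underlying topological space.
* `IsMarking X C φ` : `φ : S² → C` is a marking of the nodal curve `C` by `(S², X)`.
* `SMark X` : the markings by `(S², X)` of stable curves, and `AT X` : the augmented Teichmüller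
  space of `(S², X)`, with its topology.
* `IsStabilization` : the stabilization of a marking of a pre-stable curve.
* `IsAdmissible` : the holomorphic maps between pre-stable curves used in the definition of `AT_f`.
* `Setting A B f ι` : the pairs `(f, ι)`, and `AD A B f ι` the augmented deformation space.
-/

set_option autoImplicit false

open Set Topology Filter
open scoped OnePoint

noncomputable section

namespace Pool.Agent.TH230.Aug

/-! ### The sphere -/

/-- The sphere `S² = ℂ ∪ {∞}`; it is also the Riemann sphere `ℙ¹`. The group `GL (Fin 2) ℂ` acts on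
it by Möbius transformations (Mathlib's action on `OnePoint ℂ`). -/
abbrev Sph : Type := OnePoint ℂ

/-- The point `[a : b]` of the Riemann sphere: `a / b`, and `∞` if `b = 0`. -/
def toSph (a b : ℂ) : Sph := if b = 0 then ∞ else ((a / b : ℂ) : Sph)

/-- `G` is a rational function of degree `n`: `G = P / Q` with `P`, `Q` coprime polynomials and
`n = max (deg P) (deg Q)`. These are exactly the holomorphic self-maps of the Riemann sphere. -/
def IsRational (n : ℕ) (G : Sph → Sph) : Prop :=
  ∃ P Q : Polynomial ℂ, P.natDegree ≤ n ∧ Q.natDegree ≤ n ∧ (P.coeff n ≠ 0 ∨ Q.coeff n ≠ 0) ∧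
    IsCoprime P Q ∧ (∀ z : ℂ, G (z : Sph) = toSph (P.eval z) (Q.eval z)) ∧
    G ∞ = toSph (P.coeff n) (Q.coeff n)

/-- `g` is homotopic to the identity. A continuous self-map of the sphere is homotopic to the
identity if and only if it has degree one; in particular a homeomorphism of the sphere is homotopic
to the identity if and only if it preserves the orientation. -/
def HomotopicToId (g : Sph → Sph) : Prop :=
  ∃ H : unitInterval × Sph → Sph, Continuous H ∧ (∀ z, H (0, z) = z) ∧ ∀ z, H (1, z) = g z

/-- `f : S² → S²` is an (orientation preserving) branched covering of degree `d`: a rational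
function of degree `d ≥ 1` composed with an orientation preserving homeomorphism. (Every branched
covering is of this form: pull the complex structure back by `f` and uniformize.) -/
def IsBranchedCovering (d : ℕ) (f : Sph → Sph) : Prop :=
  1 ≤ d ∧ ∃ G : Sph → Sph, IsRational d G ∧ ∃ h : Sph ≃ₜ Sph, HomotopicToId h ∧ ∀ x, f x = G (h x)

/-! ### Nodal curves -/

/-- A simply connected nodal curve all of whose components are isomorphic to `ℙ¹`: there are `nV`
components (copies of the Riemann sphere) and `nE` nodes; the `e`-th node is obtained by gluing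
the points `br e true` and `br e false` (a pair of a component and a point of it). These points
are pairwise distinct, and the graph whose vertices are the components and whose edges are the
nodes is a tree: it is connected, with one vertex more than edges. -/
structure Nodal where
  nV : ℕ
  nE : ℕ
  br : Fin nE → Bool → Fin nV × Sph
  br_inj : ∀ e s e' s', br e s = br e' s' → e = e' ∧ s = s'
  card : nV = nE + 1
  conn : ∀ v w : Fin nV,
    Relation.ReflTransGen (fun a b => ∃ e s, (br e s).1 = a ∧ (br e (!s)).1 = b) v w

/-- The gluing relation: the two branches of a node are identified. -/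
def Nodal.Glue (C : Nodal) (p q : Fin C.nV × Sph) : Prop := ∃ e s, p = C.br e s ∧ q = C.br e (!s)

/-- The topological space underlying a nodal curve, with the quotient topology. -/
def Nodal.Curve (C : Nodal) : Type := Quot C.Glue

instance (C : Nodal) : TopologicalSpace C.Curve := inferInstanceAs (TopologicalSpace (Quot C.Glue))

/-- The point `z` of the component `v`. -/
def Nodal.pt (C : Nodal) (v : Fin C.nV) (z : Sph) : C.Curve := Quot.mk _ (v, z)

/-- The `e`-th node. -/
def Nodal.node (C : Nodal) (e : Fin C.nE) : C.Curve := Quot.mk _ (C.br e true)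

/-- `κ : C → ℙ¹` is the projection of the nodal curve to its component `v`: it is the identity of
this component and is constant on each of the other components (hence contracts each connected
component of the closure of the complement of the component `v` to the node where it is attached;
there is exactly one such map). -/
def IsCollapse (C : Nodal) (v : Fin C.nV) (κ : C.Curve → Sph) : Prop :=
  Continuous κ ∧ (∀ z, κ (C.pt v z) = z) ∧ ∀ w, w ≠ v → ∃ p, ∀ z, κ (C.pt w z) = p

/-- An isomorphism of nodal curves: a homeomorphism given by a bijection of the sets of components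
and by Möbius transformations between the components. -/
structure Iso (C C' : Nodal) where
  toHomeo : C.Curve ≃ₜ C'.Curve
  perm : Fin C.nV ≃ Fin C'.nV
  mob : Fin C.nV → GL (Fin 2) ℂ
  spec : ∀ v z, toHomeo (C.pt v z) = C'.pt (perm v) (mob v • z)

/-! ### Markings -/

/-- `φ` is a marking of the nodal curve `C` (with set of marked points `φ '' X`) by `(S², X)`: a
continuous surjection (it is then a quotient map, the spaces being compact and Hausdorff), mapping
`X` injectively to points that are not nodes, such that the preimage of every node is a simple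
closed curve, injective outside of these curves, and compatible with the orientations: composed
with the projection to any component it gives a map `S² → ℙ¹ = S²` of degree one. -/
structure IsMarking (X : Set Sph) (C : Nodal) (φ : Sph → C.Curve) : Prop where
  cont : Continuous φ
  surj : Function.Surjective φ
  curves : ∀ e, ∃ γ : Circle → Sph, Continuous γ ∧ Function.Injective γ ∧ range γ = φ ⁻¹' {C.node e}
  inj : ∀ x y, φ x = φ y → x = y ∨ ∃ e, φ x = C.node e
  avoid : ∀ x ∈ X, ∀ e, φ x ≠ C.node e
  orient : ∀ v κ, IsCollapse C v κ → HomotopicToId (κ ∘ φ)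

/-- The special points of the component `v` of `C`: nodes and marked points. -/
def special (X : Set Sph) (C : Nodal) (φ : Sph → C.Curve) (v : Fin C.nV) : Set Sph :=
  {z | (∃ e s, C.br e s = (v, z)) ∨ ∃ x ∈ X, φ x = C.pt v z}

/-- An isotopy relative to `X` between two markings of the nodal curve `C` by `(S², X)`. -/
def IsotopicRel (X : Set Sph) (C : Nodal) (φ φ' : Sph → C.Curve) : Prop :=
  ∃ H : unitInterval × Sph → C.Curve, Continuous H ∧ (∀ x, H (0, x) = φ x) ∧
    (∀ x, H (1, x) = φ' x) ∧ (∀ t, IsMarking X C fun x => H (t, x)) ∧
    ∀ t, ∀ x ∈ X, H (t, x) = φ x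

/-- A marking by `(S², X)` of a stable curve: every component carries at least three special
points. -/
structure SMark (X : Set Sph) where
  C : Nodal
  φ : Sph → C.Curve
  marking : IsMarking X C φ
  stable : ∀ v, 3 ≤ (special X C φ v).encard

/-- Two markings are equivalent if they agree up to isomorphism of nodal curves and isotopy rel
`X`. -/
def SMark.Equivalent {X : Set Sph} (m m' : SMark X) : Prop :=
  ∃ α : Iso m.C m'.C, IsotopicRel X m'.C (fun x => α.toHomeo (m.φ x)) m'.φ

/-- The augmented Teichmüller space of `(S², X)`: the equivalence classes of markings of stable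
curves by `(S², X)`. -/
def AT (X : Set Sph) : Type := Quot (SMark.Equivalent (X := X))

/-- The class of a marking. -/
def AT.mk {X : Set Sph} (m : SMark X) : AT X := Quot.mk _ m

/-- The marking `m'` is `W`-close to the marking `m`, where `W` is a neighbourhood of the diagonal
of `S² × S²`: for every component `v` of the curve of `m` there are a component `w` of the curve of
`m'` and a Möbius transformation `g` such that, after projection to `v` and to `w`, the markings
`m` and `g ∘ m'` are uniformly `W`-close. -/
def Near {X : Set Sph} (W : Set (Sph × Sph)) (m m' : SMark X) : Prop :=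
  ∀ v κ, IsCollapse m.C v κ → ∃ w κ', ∃ g : GL (Fin 2) ℂ, IsCollapse m'.C w κ' ∧
    ∀ x, (g • κ' (m'.φ x), κ (m.φ x)) ∈ W

theorem Near.mono {X : Set Sph} {W W' : Set (Sph × Sph)} (h : W ⊆ W') {m m' : SMark X}
    (hm : Near W m m') : Near W' m m' := by
  intro v κ hκ
  obtain ⟨w, κ', g, h1, h2⟩ := hm v κ hκ
  exact ⟨w, κ', g, h1, fun x => h (h2 x)⟩

/-- The topology of the augmented Teichmüller space (the conformal, or Bers, topology): the classes
of the markings that are `W`-close to `m`, for `W` an open neighbourhood of the diagonal of
`S² × S²`, form a basis of neighbourhoods of the class of `m`. -/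
instance (X : Set Sph) : TopologicalSpace (AT X) where
  IsOpen U := ∀ m : SMark X, AT.mk m ∈ U → ∃ W : Set (Sph × Sph), IsOpen W ∧ (∀ z, (z, z) ∈ W) ∧
    ∀ m' : SMark X, Near W m m' → AT.mk m' ∈ U
  isOpen_univ := fun _ _ => ⟨univ, isOpen_univ, fun _ => trivial, fun _ _ => trivial⟩
  isOpen_inter := by
    intro U U' h h' m hm
    obtain ⟨W, h1, h2, h3⟩ := h m hm.1
    obtain ⟨W', h1', h2', h3'⟩ := h' m hm.2
    exact ⟨W ∩ W', h1.inter h1', fun z => ⟨h2 z, h2' z⟩,
      fun m' hm' => ⟨h3 m' (hm'.mono inter_subset_left), h3' m' (hm'.mono inter_subset_right)⟩⟩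
  isOpen_sUnion := by
    intro S h m hm
    obtain ⟨U, hU, hmU⟩ := hm
    obtain ⟨W, h1, h2, h3⟩ := h U hU m hmU
    exact ⟨W, h1, h2, fun m' hm' => ⟨U, hU, h3 m' hm'⟩⟩

/-! ### Stabilization -/

/-- `c : C → C'` is a contraction of nodal curves: it is continuous, maps each component of `C` to
a point or isomorphically onto a component of `C'`, and every component of `C'` is the isomorphic
image of exactly one component of `C`. -/
structure IsContraction (C C' : Nodal) (c : C.Curve → C'.Curve) : Prop where
  cont : Continuous c
  comp : ∀ v, (∃ p, ∀ z, c (C.pt v z) = p) ∨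
    ∃ w, ∃ g : GL (Fin 2) ℂ, ∀ z, c (C.pt v z) = C'.pt w (g • z)
  bij : ∀ w, ∃! v, ∃ g : GL (Fin 2) ℂ, ∀ z, c (C.pt v z) = C'.pt w (g • z)

/-- The marking `σ` by `(S², X)` of a stable curve is the stabilization of the map `ψ : S² → C`
(which is a marking of a pre-stable curve by `(S², Y)` with `X ⊆ Y`): the unstable components of
`C` are contracted by `c : C → C'`, and `σ` is the marking of `C'` defined up to isotopy by the map
`c ∘ ψ`, i.e. `c ∘ ψ` is the limit, for `t → 0`, of an isotopy rel `X` of markings `H t`,
`0 < t ≤ 1`, with `H 1 = σ`. -/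
def IsStabilization (X : Set Sph) (C : Nodal) (ψ : Sph → C.Curve) (σ : SMark X) : Prop :=
  ∃ c : C.Curve → σ.C.Curve, IsContraction C σ.C c ∧
    ∃ H : unitInterval × Sph → σ.C.Curve, Continuous H ∧ (∀ x, H (0, x) = c (ψ x)) ∧
      (∀ x, H (1, x) = σ.φ x) ∧ (∀ t, t ≠ 0 → IsMarking X σ.C fun x => H (t, x)) ∧
      ∀ t, ∀ x ∈ X, H (t, x) = c (ψ x)

/-! ### The augmented deformation space -/

/-- `F : C → C'` is a surjective holomorphic map sending nodes to nodes, of generically constant
degree globally and near each node. -/
structure IsAdmissible (C C' : Nodal) (F : C.Curve → C'.Curve) : Prop where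
  cont : Continuous F
  surj : Function.Surjective F
  holo : ∀ v, ∃ w, ∃ n, ∃ G : Sph → Sph, IsRational n G ∧ ∀ z, F (C.pt v z) = C'.pt w (G z)
  nodes : ∀ e, ∃ e', F (C.node e) = C'.node e'
  degree : ∃ d : ℕ, ∀ w, {z | (F ⁻¹' {C'.pt w z}).encard ≠ d}.Finite
  nodeDegree : ∀ e, ∃ d : ℕ, ∀ N ∈ 𝓝 (C.node e), ∃ M ∈ 𝓝 (C.node e), M ⊆ N ∧
    ∀ᶠ y in 𝓝[≠] (F (C.node e)), (F ⁻¹' {y} ∩ M).encard = d

/-- The setting: `A`, `B ⊂ S²` are finite with at least three points, `f : (S², A) → (S², B)` is a
branched covering with branch values in `B`, and `ι : S² → S²` is an orientation preserving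
homeomorphism with `ι(A) ⊆ B`, identifying `A` with a subset of `B`. -/
structure Setting (A B : Set Sph) (f : Sph → Sph) (ι : Sph ≃ₜ Sph) : Prop where
  finA : A.Finite
  finB : B.Finite
  cardA : 3 ≤ A.ncard
  cardB : 3 ≤ B.ncard
  cover : ∃ d, IsBranchedCovering d f
  branch : ∀ x, (∀ N ∈ 𝓝 x, ¬ InjOn f N) → f x ∈ B
  maps : ∀ a ∈ A, f a ∈ B
  iota : HomotopicToId ι
  iota_maps : ∀ a ∈ A, ι a ∈ B

/-- The augmented deformation space, as a subset of `AT B` (the space of the triples `(φ, ψ, F)` is
identified with `AT B` by `(φ, ψ, F) ↦ φ`): the classes of the markings `φ` by `(S², B)` of stable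
curves `C_L` for which there are a marking `ψ` by `(S², A)` of a pre-stable curve `C_U` and an
admissible holomorphic map `F : C_U → C_L` with `F ∘ ψ = φ ∘ f`, such that the stabilization of `ψ`
and the stabilization of `φ` as a marking by `(S², A)` (that is, of `φ ∘ ι`) are the same point of
`AT A`. -/
def AD (A B : Set Sph) (f : Sph → Sph) (ι : Sph ≃ₜ Sph) : Set (AT B) :=
  {x | ∃ m : SMark B, AT.mk m = x ∧
    ∃ (C : Nodal) (ψ : Sph → C.Curve) (F : C.Curve → m.C.Curve),
      IsMarking A C ψ ∧ IsAdmissible C m.C F ∧ (∀ x, F (ψ x) = m.φ (f x)) ∧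
      ∃ σ σ' : SMark A, IsStabilization A C ψ σ ∧
        IsStabilization A m.C (fun x => m.φ (ι x)) σ' ∧ AT.mk σ = AT.mk σ'}

/-- The Teichmüller space of `(S², X)`, inside the augmented Teichmüller space: the classes of the
markings of curves without nodes. -/
def Teich (X : Set Sph) : Set (AT X) := {x | ∃ m : SMark X, AT.mk m = x ∧ m.C.nE = 0}

/-- The deformation space of `(f, ι)`: the part of the augmented deformation space in the
Teichmüller space of `(S², B)`. -/
def DefSpace (A B : Set Sph) (f : Sph → Sph) (ι : Sph ≃ₜ Sph) : Set (AT B) :=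
  AD A B f ι ∩ Teich B

end Pool.Agent.TH230.Aug
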