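import Pool.Agent.TH230.Aug.Cube

/-! Stable curves with four marked points, for MP_21db80_an. -/

set_option autoImplicit false

open Set Topology Filter
open scoped OnePoint

noncomputable section

namespace Pool.Agent.TH230.Aug

/-- The set of the four marked points. -/
def A4 : Set Sph := range a4

lemma a4_inj : Function.Injective a4 := by
  intro i j h
  fin_cases i <;> fin_cases j <;> simp at h ⊢ <;> norm_num at h

lemma a4_mem (i : Fin 4) : a4 i ∈ A4 := ⟨i, rfl⟩

lemma exists_coords (m : SMark A4) : ∃ (c : Fin 4 → Fin m.C.nV) (z : Fin 4 → Sph),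
    ∀ i, m.φ (a4 i) = m.C.pt (c i) (z i) := by
  choose c z h using fun i => Nodal.exists_pt (m.φ (a4 i))
  exact ⟨c, z, fun i => (h i).symm⟩

section

variable {m : SMark A4} {c : Fin 4 → Fin m.C.nV} {z : Fin 4 → Sph}

lemma pt_unique (h : ∀ i, m.φ (a4 i) = m.C.pt (c i) (z i)) {i : Fin 4} {v : Fin m.C.nV} {w : Sph}
    (h1 : m.φ (a4 i) = m.C.pt v w) : c i = v ∧ z i = w := by
  rw [h i, Nodal.pt_eq] at h1
  rcases h1 with h1 | ⟨e, s, h2, _⟩
  · exact h1
  · exfalso
    apply m.marking.avoid _ (a4_mem i) e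
    rw [h i, Nodal.pt_eq_node]
    exact ⟨s, h2⟩

lemma special_sub (h : ∀ i, m.φ (a4 i) = m.C.pt (c i) (z i)) (v : Fin m.C.nV) :
    special A4 m.C m.φ v ⊆ {w | ∃ e s, m.C.br e s = (v, w)} ∪ {w | ∃ i, c i = v ∧ z i = w} := by
  rintro w (⟨e, s, h1⟩ | ⟨x, ⟨i, rfl⟩, h1⟩)
  · exact Or.inl ⟨e, s, h1⟩
  · exact Or.inr ⟨i, pt_unique h h1⟩

lemma z_inj (h : ∀ i, m.φ (a4 i) = m.C.pt (c i) (z i)) {i j : Fin 4} (hc : c i = c j)
    (hz : z i = z j) : i = j := by
  have h1 : m.φ (a4 i) = m.φ (a4 j) := by rw [h i, h j, hc, hz]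
  rcases m.marking.inj _ _ h1 with h2 | ⟨e, he⟩
  · exact a4_inj h2
  · exact absurd he (m.marking.avoid _ (a4_mem i) e)

/-- At most one node. -/
lemma nE_le (m : SMark A4) : m.C.nE ≤ 1 := by
  classical
  obtain ⟨c, z, h⟩ := exists_coords m
  -- all special points
  let S : Finset (Fin m.C.nV × Sph) :=
    (Finset.univ.image fun p : Fin m.C.nE × Bool => m.C.br p.1 p.2) ∪
      (Finset.univ.image fun i : Fin 4 => (c i, z i))
  have hS : S.card ≤ 2 * m.C.nE + 4 := by
    refine (Finset.card_union_le _ _).trans (add_le_add ?_ ?_)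
    · refine Finset.card_image_le.trans ?_
      simp [mul_comm]
    · refine Finset.card_image_le.trans ?_
      simp
  have hfib : S.card = ∑ v : Fin m.C.nV, (S.filter fun p => p.1 = v).card := by
    rw [← Finset.card_eq_sum_card_fiberwise]
    intro p _; simp
  have hge : ∀ v, 3 ≤ (S.filter fun p => p.1 = v).card := by
    intro v
    have h1 := m.stable v
    have h2 : special A4 m.C m.φ v ⊆ Prod.snd ''
        ((S.filter fun p => p.1 = v : Finset (Fin m.C.nV × Sph)) : Set (Fin m.C.nV × Sph)) := by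
      intro w hw
      refine ⟨(v, w), ?_, rfl⟩
      simp only [S, Finset.coe_filter, Finset.mem_union, Finset.mem_image, Finset.mem_univ,
        true_and, mem_setOf_eq, and_true]
      rcases special_sub h v hw with ⟨e, s, he⟩ | ⟨i, h3, h4⟩
      · exact Or.inl ⟨(e, s), he⟩
      · exact Or.inr ⟨i, by rw [h3, h4]⟩
    have h3 := (encard_le_encard h2).trans (encard_image_le _ _)
    rw [encard_coe_eq_coe_finsetCard] at h3
    exact_mod_cast h1.trans h3
  have h3 : 3 * m.C.nV ≤ S.card := by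
    rw [hfib]
    calc 3 * m.C.nV = ∑ _v : Fin m.C.nV, 3 := by simp [mul_comm]
      _ ≤ _ := Finset.sum_le_sum fun v _ => hge v
  have := m.C.card
  omega

/-- The two branches of the node of a curve with one node lie on different components. -/
lemma br_ne {C : Nodal} (hE : C.nE = 1) (e : Fin C.nE) (s : Bool) :
    (C.br e s).1 ≠ (C.br e (!s)).1 := by
  intro h
  have hV : C.nV = 2 := by rw [C.card, hE]
  have hsub : ∀ e' : Fin C.nE, e' = e := by
    intro e'; apply Fin.ext; have := e.2; have := e'.2; omega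
  have hall : ∀ e' s', (C.br e' s').1 = (C.br e s).1 := by
    intro e' s'
    rw [hsub e']
    cases s <;> cases s' <;> simp_all
  have hreach : ∀ w, Relation.ReflTransGen
      (fun a b => ∃ e s, (C.br e s).1 = a ∧ (C.br e (!s)).1 = b) (C.br e s).1 w →
      w = (C.br e s).1 := by
    intro w hw
    induction hw with
    | refl => rfl
    | tail _ h2 _ =>
      obtain ⟨e', s', _, h4⟩ := h2
      rw [← h4]; exact hall e' _
  have h0 := hreach _ (C.conn (C.br e s).1 ⟨0, by omega⟩)
  have h1 := hreach _ (C.conn (C.br e s).1 ⟨1, by omega⟩)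
  have := h0.trans h1.symm
  simp at this

/-- Structure of the stable curves with four marked points and a node. -/
lemma structure_of_node (h : ∀ i, m.φ (a4 i) = m.C.pt (c i) (z i)) (hE : m.C.nE = 1)
    (v : Fin m.C.nV) : ∃ w p q, w ≠ v ∧ (∀ u, u = v ∨ u = w) ∧
      (∃ e s, m.C.br e s = (v, p) ∧ m.C.br e (!s) = (w, q)) ∧
      (∀ i, c i = v → z i ≠ p) ∧
      ∃ i j, i ≠ j ∧ c i = w ∧ c j = w ∧ ∀ a b, a ≠ b → c a = w → c b = w →
        (a = i ∧ b = j) ∨ (a = j ∧ b = i) := by
  have hV : m.C.nV = 2 := by rw [m.C.card, hE]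
  set e : Fin m.C.nE := ⟨0, by omega⟩ with he
  have hsub : ∀ e' : Fin m.C.nE, e' = e := by
    intro e'; apply Fin.ext; have := e.2; have := e'.2; omega
  have two : ∀ a b u : Fin m.C.nV, a ≠ b → u = a ∨ u = b := by
    intro a b u hab
    have h1 := a.2; have h2 := b.2; have h3 := u.2
    have : a.1 ≠ b.1 := fun h => hab (Fin.ext h)
    have : u.1 = a.1 ∨ u.1 = b.1 := by omega
    rcases this with h | h
    · exact Or.inl (Fin.ext h)
    · exact Or.inr (Fin.ext h)
  -- every component has two marked points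
  have marks : ∀ u : Fin m.C.nV, ∃ i j, i ≠ j ∧ c i = u ∧ c j = u := by
    intro u
    by_contra hcon
    push Not at hcon
    have hone : ∀ i j, c i = u → c j = u → i = j := by
      intro i j h1 h2
      by_contra hij
      exact hcon i j hij h1 h2
    -- branch
    have hbr : ∀ w w', (∃ e s, m.C.br e s = (u, w)) → (∃ e s, m.C.br e s = (u, w')) → w = w' := by
      rintro w w' ⟨e1, s1, h1⟩ ⟨e2, s2, h2⟩
      rw [hsub e1] at h1
      rw [hsub e2] at h2
      by_cases hs : s1 = s2
      · rw [hs, h2] at h1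
        exact (Prod.ext_iff.1 h1).2.symm
      · exfalso
        have : s2 = !s1 := by cases s1 <;> cases s2 <;> simp_all
        rw [this] at h2
        apply br_ne hE e s1
        rw [h1, h2]
    have hsp := special_sub h u
    have h3 := (m.stable u).trans (encard_le_encard hsp)
    have h4 : ({w | ∃ e s, m.C.br e s = (u, w)} : Set Sph).encard ≤ 1 :=
      encard_le_one_iff.2 (fun a b ha hb => hbr a b ha hb)
    have h5 : ({w | ∃ i, c i = u ∧ z i = w} : Set Sph).encard ≤ 1 := by
      refine encard_le_one_iff.2 ?_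
      rintro a b ⟨i, hi, rfl⟩ ⟨j, hj, rfl⟩
      rw [hone i j hi hj]
    have h6 := h3.trans ((encard_union_le _ _).trans (add_le_add h4 h5))
    norm_num at h6
  -- the branch at v
  obtain ⟨s, hs⟩ : ∃ s, (m.C.br e s).1 = v := by
    rcases two _ _ v (br_ne hE e true) with h1 | h1
    · exact ⟨true, h1.symm⟩
    · exact ⟨false, h1.symm⟩
  refine ⟨(m.C.br e (!s)).1, (m.C.br e s).2, (m.C.br e (!s)).2, ?_, ?_, ?_, ?_, ?_⟩
  · rw [← hs]; exact (br_ne hE e s).symm
  · intro u
    rw [← hs]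
    exact two _ _ u (br_ne hE e s)
  · exact ⟨e, s, by rw [← hs], rfl⟩
  · intro i hi hz
    apply m.marking.avoid _ (a4_mem i) e
    rw [h i, Nodal.pt_eq_node]
    exact ⟨s, by rw [hi, hz, ← hs]⟩
  · obtain ⟨i, j, hij, hi, hj⟩ := marks (m.C.br e (!s)).1
    obtain ⟨k, l, hkl, hk, hl⟩ := marks v
    refine ⟨i, j, hij, hi, hj, ?_⟩
    intro a b hab ha hb
    have hvw : (m.C.br e (!s)).1 ≠ v := by rw [← hs]; exact (br_ne hE e s).symm
    have n1 : a ≠ k := by rintro rfl; exact hvw (ha.symm.trans hk)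
    have n2 : a ≠ l := by rintro rfl; exact hvw (ha.symm.trans hl)
    have n3 : b ≠ k := by rintro rfl; exact hvw (hb.symm.trans hk)
    have n4 : b ≠ l := by rintro rfl; exact hvw (hb.symm.trans hl)
    have n5 : i ≠ k := by rintro rfl; exact hvw (hi.symm.trans hk)
    have n6 : i ≠ l := by rintro rfl; exact hvw (hi.symm.trans hl)
    have n7 : j ≠ k := by rintro rfl; exact hvw (hj.symm.trans hk)
    have n8 : j ≠ l := by rintro rfl; exact hvw (hj.symm.trans hl)
    clear h marks hs ha hb hi hj hk hl hvw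
    omega

end

/-- The quadruple of projections of the marked points. -/
def tup (m : SMark A4) (κ : m.C.Curve → Sph) : Fin 4 → Sph := fun i => κ (m.φ (a4 i))

lemma tup_of_node {m : SMark A4} (hE : m.C.nE = 1) {v : Fin m.C.nV} {κ : m.C.Curve → Sph}
    (hκ : IsCollapse m.C v κ) : ∃ i j, i ≠ j ∧ tup m κ i = tup m κ j ∧
      ∀ a b, a ≠ b → tup m κ a = tup m κ b → (a = i ∧ b = j) ∨ (a = j ∧ b = i) := by
  obtain ⟨c, z, h⟩ := exists_coords m
  obtain ⟨w, p, q, hwv, hall, ⟨e, s, hb1, hb2⟩, hzp, i, j, hij, hi, hj, hu⟩ :=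
    structure_of_node h hE v
  obtain ⟨_, k1, k2⟩ := hκ
  obtain ⟨p', hp'⟩ := k2 w hwv
  have hpp : p' = p := by
    have : m.C.pt v p = m.C.pt w q := by
      rw [Nodal.pt_eq]; exact Or.inr ⟨e, s, hb1, hb2⟩
    rw [← k1 p, this, hp']
  have tv : ∀ a, c a = v → tup m κ a = z a := by
    intro a ha; simp only [tup]; rw [h a, ha, k1]
  have tw : ∀ a, c a = w → tup m κ a = p := by
    intro a ha; simp only [tup]; rw [h a, ha, hp', hpp]
  refine ⟨i, j, hij, by rw [tw i hi, tw j hj], ?_⟩
  intro a b hab hab'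
  rcases hall (c a) with ha | ha <;> rcases hall (c b) with hb | hb
  · rw [tv a ha, tv b hb] at hab'
    exact absurd (z_inj h (ha.trans hb.symm) hab') hab
  · rw [tv a ha, tw b hb] at hab'
    exact absurd hab' (hzp a ha)
  · rw [tw a ha, tv b hb] at hab'
    exact absurd hab'.symm (hzp b hb)
  · exact hu a b hab ha hb

lemma not_Harm_of_node {m : SMark A4} (hE : m.C.nE = 1) {v : Fin m.C.nV} {κ : m.C.Curve → Sph}
    (hκ : IsCollapse m.C v κ) : ¬ Harm (tup m κ) := by
  obtain ⟨i, j, hij, h1, h2⟩ := tup_of_node hE hκ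
  exact not_Harm hij h1 h2

lemma not_inj_of_node {m : SMark A4} (hE : m.C.nE = 1) {v : Fin m.C.nV} {κ : m.C.Curve → Sph}
    (hκ : IsCollapse m.C v κ) : ¬ Function.Injective (tup m κ) := by
  obtain ⟨i, j, hij, h1, h2⟩ := tup_of_node hE hκ
  exact fun h => hij (h h1)

/-- The projection exists if there is no node. -/
lemma exists_collapse_zero {C : Nodal} (hE : C.nE = 0) :
    ∃ v κ, IsCollapse C v κ ∧ Function.Bijective (C.pt v) ∧ Function.Injective κ := by
  have hV : C.nV = 1 := by rw [C.card, hE]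
  have hv : ∀ v w : Fin C.nV, v = w := by
    intro v w; apply Fin.ext; have := v.2; have := w.2; omega
  have noE : Fin C.nE → False := fun e => by have := e.2; omega
  refine ⟨⟨0, by omega⟩, Quot.lift (fun p => p.2) ?_, ⟨?_, ?_, ?_⟩, ⟨?_, ?_⟩, ?_⟩
  · rintro a b ⟨e, _⟩; exact (noE e).elim
  · exact continuous_quot_lift _ continuous_snd
  · intro z; rfl
  · intro w hw; exact absurd (hv _ _) hw
  · intro z z' h
    rw [Nodal.pt_eq] at h
    rcases h with h | ⟨e, _⟩
    · exact h.2
    · exact (noE e).elim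
  · intro x
    obtain ⟨v, z, h⟩ := Nodal.exists_pt x
    refine ⟨z, ?_⟩
    rw [← h]
    congr 1
    exact hv _ _
  · intro x y h
    obtain ⟨v, z, rfl⟩ := Nodal.exists_pt x
    obtain ⟨w, z', rfl⟩ := Nodal.exists_pt y
    have : z = z' := h
    rw [this, hv v w]

end Pool.Agent.TH230.Aug
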