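import Pool.Agent.TH230.Aug.Sphere

/-! Lemmas on nodal curves for MP_21db80_an. -/

set_option autoImplicit false

open Set Topology Filter
open scoped OnePoint

noncomputable section

namespace Pool.Agent.TH230.Aug

lemma Nodal.glue_symm {C : Nodal} {p q : Fin C.nV × Sph} (h : C.Glue p q) : C.Glue q p := by
  obtain ⟨e, s, h1, h2⟩ := h
  exact ⟨e, !s, h2, by simpa using h1⟩

lemma Nodal.mk_eq {C : Nodal} {p q : Fin C.nV × Sph} :
    (Quot.mk C.Glue p = Quot.mk C.Glue q) ↔ (p = q ∨ C.Glue p q) := by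
  constructor
  · intro h
    have h1 := Quot.eqvGen_exact h
    clear h
    induction h1 with
    | rel x y h => exact Or.inr h
    | refl x => exact Or.inl rfl
    | symm x y _ ih =>
      rcases ih with h | h
      · exact Or.inl h.symm
      · exact Or.inr (Nodal.glue_symm h)
    | trans x y z hxy hyz ih1 ih2 =>
      rcases ih1 with h1 | h1
      · subst h1; exact ih2
      · rcases ih2 with h2 | h2
        · subst h2; exact Or.inr h1
        · obtain ⟨e, s, h3, h4⟩ := h1
          obtain ⟨e', s', h5, h6⟩ := h2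
          obtain ⟨h7, h8⟩ := C.br_inj e (!s) e' s' (h4.symm.trans h5)
          subst h7
          subst h8
          left
          rw [h3, h6]; simp
  · rintro (h | h)
    · rw [h]
    · exact Quot.sound h

lemma Nodal.pt_eq {C : Nodal} {v w : Fin C.nV} {z z' : Sph} :
    C.pt v z = C.pt w z' ↔ ((v = w ∧ z = z') ∨ ∃ e s, C.br e s = (v, z) ∧ C.br e (!s) = (w, z')) := by
  refine (Nodal.mk_eq (C := C) (p := (v, z)) (q := (w, z'))).trans ?_
  constructor
  · rintro (h | ⟨e, s, h1, h2⟩)
    · left; simpa using h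
    · right; exact ⟨e, s, h1.symm, h2.symm⟩
  · rintro (⟨rfl, rfl⟩ | ⟨e, s, h1, h2⟩)
    · left; rfl
    · right; exact ⟨e, s, h1.symm, h2.symm⟩

lemma Nodal.pt_eq_node {C : Nodal} {v : Fin C.nV} {z : Sph} {e : Fin C.nE} :
    C.pt v z = C.node e ↔ ∃ s, C.br e s = (v, z) := by
  unfold Nodal.node
  have : (Quot.mk C.Glue (C.br e true) : C.Curve) = C.pt (C.br e true).1 (C.br e true).2 := rfl
  rw [this, Nodal.pt_eq]
  constructor
  · rintro (⟨h1, h2⟩ | ⟨e', s, h1, h2⟩)
    · exact ⟨true, by rw [h1, h2]⟩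
    · obtain ⟨h3, h4⟩ := C.br_inj e' (!s) e true h2
      subst h3
      exact ⟨s, h1⟩
  · rintro ⟨s, hs⟩
    cases s with
    | true => left; rw [hs]; exact ⟨rfl, rfl⟩
    | false => right; exact ⟨e, false, hs, rfl⟩

lemma Nodal.exists_pt {C : Nodal} (x : C.Curve) : ∃ v z, C.pt v z = x := by
  induction x using Quot.ind with
  | mk p => exact ⟨p.1, p.2, rfl⟩

lemma Nodal.continuous_pt (C : Nodal) (v : Fin C.nV) : Continuous (C.pt v) :=
  continuous_quot_mk.comp (continuous_const.prodMk continuous_id)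

lemma Nodal.continuous_of {C : Nodal} {Y : Type*} [TopologicalSpace Y] {f : C.Curve → Y}
    (h : ∀ v, Continuous fun z => f (C.pt v z)) : Continuous f := by
  refine continuous_quot_lift (f := fun p : Fin C.nV × Sph => f (Quot.mk _ p)) ?_ ?_ |>.congr ?_
  · intro a b hab
    exact congrArg f (Quot.sound hab)
  · rw [continuous_iff_continuousAt]
    rintro ⟨v, z⟩
    have h1 : ContinuousAt (fun p : Fin C.nV × Sph => f (C.pt v p.2)) (v, z) :=
      (h v).continuousAt.comp continuous_snd.continuousAt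
    refine h1.congr ?_
    have h2 : ∀ᶠ p : Fin C.nV × Sph in 𝓝 (v, z), p.1 = v :=
      (continuous_fst.tendsto (v, z)).eventually (p := fun w => w = v) (by
        rw [nhds_discrete]; exact rfl)
    filter_upwards [h2] with p hp
    show f (C.pt v p.2) = f (Quot.mk _ p)
    rw [← hp]; rfl
  · intro x
    induction x using Quot.ind with
    | mk p => rfl

/-- Identity isomorphism. -/
def Iso.refl (C : Nodal) : Iso C C := ⟨Homeomorph.refl _, Equiv.refl _, fun _ => 1, by
  intro v z; simp⟩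

/-- Inverse isomorphism. -/
def Iso.symm {C C' : Nodal} (α : Iso C C') : Iso C' C :=
  ⟨α.toHomeo.symm, α.perm.symm, fun w => (α.mob (α.perm.symm w))⁻¹, by
    intro w z
    rw [Homeomorph.symm_apply_eq, α.spec]; simp⟩

/-- Composition of isomorphisms. -/
def Iso.trans {C C' C'' : Nodal} (α : Iso C C') (β : Iso C' C'') : Iso C C'' :=
  ⟨α.toHomeo.trans β.toHomeo, α.perm.trans β.perm, fun v => β.mob (α.perm v) * α.mob v, by
    intro v z
    simp [α.spec, β.spec, mul_smul]⟩

lemma Iso.nV_eq {C C' : Nodal} (α : Iso C C') : C.nV = C'.nV := by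
  simpa using Fintype.card_congr α.perm

lemma Iso.nE_eq {C C' : Nodal} (α : Iso C C') : C.nE = C'.nE := by
  have := α.nV_eq
  have h1 := C.card
  have h2 := C'.card
  omega

lemma IsCollapse.transport {C C' : Nodal} (α : Iso C C') {v : Fin C.nV} {κ : C.Curve → Sph}
    (h : IsCollapse C v κ) :
    IsCollapse C' (α.perm v) (fun x => α.mob v • κ (α.toHomeo.symm x)) := by
  obtain ⟨h1, h2, h3⟩ := h
  have hs := (α.symm).spec
  refine ⟨?_, ?_, ?_⟩
  · exact (continuous_smul_sph _).comp (h1.comp α.toHomeo.symm.continuous)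
  · intro z
    have h4 : α.toHomeo.symm (C'.pt (α.perm v) z) = C.pt v ((α.mob v)⁻¹ • z) := by
      rw [Homeomorph.symm_apply_eq, α.spec]; simp
    simp only [h4, h2, smul_inv_smul]
  · intro w hw
    have h4 : α.perm.symm w ≠ v := by
      intro h; apply hw; rw [← h]; simp
    obtain ⟨p, hp⟩ := h3 _ h4
    refine ⟨α.mob v • p, fun z => ?_⟩
    have h5 : α.toHomeo.symm (C'.pt w z) = C.pt (α.perm.symm w)
        ((α.mob (α.perm.symm w))⁻¹ • z) := hs w z
    simp only [h5, hp]

/-- The relation isomorphic as marked curves. -/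
def MR {X : Set Sph} (m m' : SMark X) : Prop :=
  ∃ α : Iso m.C m'.C, ∀ a ∈ X, α.toHomeo (m.φ a) = m'.φ a

lemma MR_of_equivalent {X : Set Sph} {m m' : SMark X} (h : m.Equivalent m') : MR m m' := by
  obtain ⟨α, H, _, _, h1, _, h2⟩ := h
  exact ⟨α, fun a ha => by rw [← h1 a, h2 1 a ha]⟩

lemma MR_of_mk_eq {X : Set Sph} {m m' : SMark X} (h : AT.mk m = AT.mk m') : MR m m' := by
  have h1 := Quot.eqvGen_exact h
  clear h
  induction h1 with
  | rel x y h => exact MR_of_equivalent h
  | refl x => exact ⟨Iso.refl _, fun a _ => rfl⟩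
  | symm x y _ ih =>
    obtain ⟨α, h⟩ := ih
    exact ⟨α.symm, fun a ha => by
      show α.toHomeo.symm _ = _
      rw [Homeomorph.symm_apply_eq, h a ha]⟩
  | trans x y z _ _ ih1 ih2 =>
    obtain ⟨α, h⟩ := ih1
    obtain ⟨β, h'⟩ := ih2
    exact ⟨α.trans β, fun a ha => by
      show β.toHomeo (α.toHomeo _) = _
      rw [h a ha, h' a ha]⟩

end Pool.Agent.TH230.Aug
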