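import Pool.Agent.TH230.Aug.Four

/-! The two open sets separating the augmented deformation space, for MP_21db80_an. -/

set_option autoImplicit false

open Set Topology Filter
open scoped OnePoint

noncomputable section

namespace Pool.Agent.TH230.Aug

lemma mk_mem_Teich {X : Set Sph} {m : SMark X} (h : AT.mk m ∈ Teich X) : m.C.nE = 0 := by
  obtain ⟨m', h1, h2⟩ := h
  obtain ⟨α, -⟩ := MR_of_mk_eq h1
  rw [← α.nE_eq, h2]

lemma tup_inj_of_zero {m : SMark A4} (hE : m.C.nE = 0) {κ : m.C.Curve → Sph}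
    (hκ : Function.Injective κ) : Function.Injective (tup m κ) := by
  intro i j h
  have h1 := hκ h
  rcases m.marking.inj _ _ h1 with h2 | ⟨e, _⟩
  · exact a4_inj h2
  · exact absurd e.2 (by omega)

lemma smul_inj (g : GL (Fin 2) ℂ) : Function.Injective (fun p : Sph => g • p) :=
  MulAction.injective g

theorem isOpen_Teich : IsOpen (Teich A4) := by
  intro m hm
  have hE := mk_mem_Teich hm
  obtain ⟨v, κ, hκ, -, hinj⟩ := exists_collapse_zero hE
  obtain ⟨W, hW, hd, hW2⟩ := exists_diag_nhd (injective_nhds (tup_inj_of_zero hE hinj))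
  refine ⟨W, hW, hd, fun m' hm' => ⟨m', rfl, ?_⟩⟩
  obtain ⟨w, κ', g, hκ', hx⟩ := hm' v κ hκ
  have h1 : Function.Injective (fun i => g • tup m' κ' i) := hW2 _ (fun i => hx (a4 i))
  have h2 : Function.Injective (tup m' κ') := fun i j h => h1 (by simp [h])
  have h3 := nE_le m'
  by_contra h4
  exact not_inj_of_node (m := m') (by omega) hκ' h2

/-- The classes with a non harmonic projection. -/
def NH : Set (AT A4) := {x | ∃ m, AT.mk m = x ∧ ∃ v κ, IsCollapse m.C v κ ∧ ¬ Harm (tup m κ)}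

lemma mk_mem_NH {m : SMark A4} (h : AT.mk m ∈ NH) :
    ∃ v κ, IsCollapse m.C v κ ∧ ¬ Harm (tup m κ) := by
  obtain ⟨m', h1, v, κ, hκ, hH⟩ := h
  obtain ⟨α, hα⟩ := MR_of_mk_eq h1
  refine ⟨α.perm v, _, hκ.transport α, ?_⟩
  intro h2
  apply hH
  have h3 : tup m (fun x => α.mob v • κ (α.toHomeo.symm x)) = fun i => α.mob v • tup m' κ i := by
    funext i
    simp only [tup]
    rw [← hα _ (a4_mem i)]
    simp
  rw [h3] at h2
  exact (Harm_smul _ _).1 h2

theorem isOpen_NH : IsOpen NH := by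
  intro m hm
  obtain ⟨v, κ, hκ, hH⟩ := mk_mem_NH hm
  obtain ⟨W, hW, hd, hW2⟩ := exists_diag_nhd (not_Harm_nhds hH)
  refine ⟨W, hW, hd, fun m' hm' => ⟨m', rfl, ?_⟩⟩
  obtain ⟨w, κ', g, hκ', hx⟩ := hm' v κ hκ
  refine ⟨w, κ', hκ', fun h => ?_⟩
  have h1 : ¬ Harm (fun i => g • tup m' κ' i) := hW2 _ (fun i => hx (a4 i))
  exact h1 ((Harm_smul _ _).2 h)

/-- The projections exist if there is one node. -/
lemma exists_collapse_one {C : Nodal} (hE : C.nE = 1) (e : Fin C.nE) (s : Bool) :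
    IsCollapse C (C.br e s).1 (Quot.lift
      (fun p => if p.1 = (C.br e s).1 then p.2 else (C.br e s).2) (by
        have hsub : ∀ e' : Fin C.nE, e' = e := by
          intro e'; apply Fin.ext; have := e.2; have := e'.2; omega
        rintro a b ⟨e', s', rfl, rfl⟩
        rw [hsub e']
        have h1 := br_ne hE e s
        by_cases hs : s' = s
        · subst hs
          rw [if_pos rfl, if_neg h1.symm]
        · have : s' = !s := by cases s <;> cases s' <;> simp_all
          subst this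
          rw [if_neg h1.symm, Bool.not_not, if_pos rfl])) := by
  refine ⟨?_, ?_, ?_⟩
  · apply Nodal.continuous_of
    intro v
    show Continuous fun z => if v = (C.br e s).1 then z else (C.br e s).2
    by_cases h : v = (C.br e s).1
    · simp only [if_pos h]; exact continuous_id
    · simp only [if_neg h]; exact continuous_const
  · intro z
    show (if (C.br e s).1 = (C.br e s).1 then z else (C.br e s).2) = z
    rw [if_pos rfl]
  · intro w hw
    refine ⟨(C.br e s).2, fun z => ?_⟩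
    show (if w = (C.br e s).1 then z else (C.br e s).2) = _
    rw [if_neg hw]

theorem univ_eq : ∀ x : AT A4, x ∈ Teich A4 ∨ x ∈ NH := by
  intro x
  induction x using Quot.ind with
  | mk m =>
    by_cases h : m.C.nE = 0
    · exact Or.inl ⟨m, rfl, h⟩
    · right
      have h1 : m.C.nE = 1 := by have := nE_le m; omega
      refine ⟨m, rfl, _, _, exists_collapse_one h1 ⟨0, by omega⟩ true, ?_⟩
      exact not_Harm_of_node h1 (exists_collapse_one h1 ⟨0, by omega⟩ true)

/-- Contractions of a curve without nodes. -/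
lemma contraction_zero {C : Nodal} (hC : C.nE = 0) {σ : SMark A4} {c : C.Curve → σ.C.Curve}
    (hc : IsContraction C σ.C c) (v : Fin C.nV) :
    ∃ w, ∃ g : GL (Fin 2) ℂ, ∀ z, c (C.pt v z) = σ.C.pt w (g • z) := by
  have hV : C.nV = 1 := by rw [C.card, hC]
  have hσ : 0 < σ.C.nV := by rw [σ.C.card]; omega
  obtain ⟨v', ⟨g, hg⟩, -⟩ := hc.bij ⟨0, hσ⟩
  have : v' = v := by apply Fin.ext; have := v.2; have := v'.2; omega
  subst this
  exact ⟨_, g, hg⟩

lemma contraction_zero' {C : Nodal} (hC : C.nE = 0) {σ : SMark A4} {c : C.Curve → σ.C.Curve}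
    (hc : IsContraction C σ.C c) : σ.C.nE = 0 := by
  by_contra h0
  have hE : σ.C.nE = 1 := by have := nE_le σ; omega
  have hV : C.nV = 1 := by rw [C.card, hC]
  obtain ⟨e⟩ : Nonempty (Fin σ.C.nE) := ⟨⟨0, by omega⟩⟩
  have hsub : ∀ e' : Fin σ.C.nE, e' = e := by
    intro e'; apply Fin.ext; have := e.2; have := e'.2; omega
  obtain ⟨v, ⟨g, hg⟩, -⟩ := hc.bij (σ.C.br e true).1
  obtain ⟨v', ⟨g', hg'⟩, -⟩ := hc.bij (σ.C.br e false).1
  have : v' = v := by apply Fin.ext; have := v.2; have := v'.2; omega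
  subst this
  have key : ∀ z, g • z = (σ.C.br e true).2 := by
    intro z
    have h1 := (hg z).symm.trans (hg' z)
    rw [Nodal.pt_eq] at h1
    rcases h1 with h1 | ⟨e', s, h1, h2⟩
    · exact absurd h1.1 (br_ne hE e true)
    · rw [hsub e'] at h1 h2
      cases s with
      | true => rw [h1]
      | false =>
        exfalso
        have h3 : (σ.C.br e false).1 = (σ.C.br e true).1 := by rw [h1]
        exact br_ne hE e true h3.symm
  have h1 := smul_inj g ((key ((0 : ℂ) : Sph)).trans (key ∞).symm)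
  exact OnePoint.coe_ne_infty (0 : ℂ) h1

/-- On the augmented deformation space, curves without nodes have a harmonic quadruple. -/
theorem disjoint_on_AD (x : AT A4) (hx : x ∈ AD A4 A4 cube (Homeomorph.refl Sph))
    (h1 : x ∈ Teich A4) (h2 : x ∈ NH) : False := by
  obtain ⟨m, rfl, C, ψ, F, hψ, hF, hFψ, σ, σ', ⟨c, hc, H, Hc, H0, H1, Hm, HA⟩,
    ⟨c', hc', H', Hc', H0', H1', Hm', HA'⟩, hσ⟩ := hx
  have hE := mk_mem_Teich h1
  have hV : m.C.nV = 1 := by rw [m.C.card, hE]
  obtain ⟨v, κ, ⟨hκc, hκ1, -⟩, hH⟩ := mk_mem_NH h2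
  apply hH
  have hCE : C.nE = 0 := by
    by_contra h
    obtain ⟨e', -⟩ := hF.nodes ⟨0, by omega⟩
    exact absurd e'.2 (by omega)
  obtain ⟨u, κ', ⟨hκc', hκ1', -⟩, hb', hi'⟩ := exists_collapse_zero hCE
  have mone : ∀ a b : Fin m.C.nV, a = b := by
    intro a b; apply Fin.ext; have := a.2; have := b.2; omega
  have Cone : ∀ a b : Fin C.nV, a = b := by
    have hV' : C.nV = 1 := by rw [C.card, hCE]
    intro a b; apply Fin.ext; have := a.2; have := b.2; omega
  -- surjectivity of `pt`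
  have mpt : ∀ y : m.C.Curve, m.C.pt v (κ y) = y := by
    intro y
    obtain ⟨w, z, rfl⟩ := Nodal.exists_pt y
    rw [mone w v, hκ1]
  have Cpt : ∀ y : C.Curve, C.pt u (κ' y) = y := by
    intro y
    obtain ⟨w, z, rfl⟩ := Nodal.exists_pt y
    rw [Cone w u, hκ1']
  obtain ⟨w, n, G, hG, hFG⟩ := hF.holo u
  have hwv : w = v := mone w v
  subst hwv
  -- bijectivity
  have hφb : Function.Bijective (fun x => κ (m.φ x)) := by
    constructor
    · intro x y hxy
      have : m.φ x = m.φ y := by rw [← mpt (m.φ x), ← mpt (m.φ y)]; simp only at hxy; rw [hxy]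
      rcases m.marking.inj _ _ this with h | ⟨e, _⟩
      · exact h
      · exact absurd e.2 (by omega)
    · intro z
      obtain ⟨x, hx⟩ := m.marking.surj (m.C.pt w z)
      exact ⟨x, by simp only [hx, hκ1]⟩
  have hψb : Function.Bijective (fun x => κ' (ψ x)) := by
    constructor
    · intro x y hxy
      have : ψ x = ψ y := hi' hxy
      rcases hψ.inj _ _ this with h | ⟨e, _⟩
      · exact h
      · exact absurd e.2 (by omega)
    · intro z
      obtain ⟨x, hx⟩ := hψ.surj (C.pt u z)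
      exact ⟨x, by simp only [hx, hκ1']⟩
  -- the Möbius transformation
  obtain ⟨α, hα⟩ := MR_of_mk_eq hσ
  obtain ⟨w1, g1, hg1⟩ := contraction_zero hCE hc u
  obtain ⟨w2, g2, hg2⟩ := contraction_zero hE hc' w
  have hσ'E := contraction_zero' hE hc'
  have hmob : ∀ i, κ' (ψ (a4 i)) = ((α.mob w1 * g1)⁻¹ * g2) • κ (m.φ (a4 i)) := by
    intro i
    have e1 : σ.φ (a4 i) = σ.C.pt w1 (g1 • κ' (ψ (a4 i))) := by
      rw [← H1, HA 1 _ (a4_mem i), ← hg1, Cpt]
    have e2 : σ'.φ (a4 i) = σ'.C.pt w2 (g2 • κ (m.φ (a4 i))) := by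
      rw [← H1', HA' 1 _ (a4_mem i), ← hg2]
      show c' (m.φ (a4 i)) = _
      rw [mpt]
    have e3 := hα _ (a4_mem i)
    rw [e1, e2, α.spec, Nodal.pt_eq] at e3
    rcases e3 with ⟨-, e3⟩ | ⟨e, _⟩
    · rw [mul_smul, ← e3, ← mul_smul (α.mob w1), inv_smul_smul]
    · exact absurd e.2 (by omega)
  have hlast : ∀ x, G (κ' (ψ x)) = κ (m.φ (cube x)) := by
    intro x
    have h3 := hFψ x
    rw [← Cpt (ψ x), hFG] at h3
    have h4 := congrArg κ h3
    rw [hκ1] at h4
    exact h4
  have := harm_of_cube (ψ := fun x => κ' (ψ x)) (φ := fun x => κ (m.φ x)) hG hψb hφb hlast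
    ((α.mob w1 * g1)⁻¹ * g2) hmob
  exact this

end Pool.Agent.TH230.Aug
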