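import Pool.Agent.TH230.Aug.Adm

/-! The two points of the augmented deformation space, for MP_21db80_an. -/

set_option autoImplicit false

open Set Topology Filter
open scoped OnePoint

noncomputable section

namespace Pool.Agent.TH230.Aug

/-! ### The interior point -/

/-- The sphere as a nodal curve. -/
def C1 : Nodal where
  nV := 1
  nE := 0
  br := fun e => e.elim0
  br_inj := fun e => e.elim0
  card := rfl
  conn := fun v w => by
    have : v = w := Subsingleton.elim _ _
    rw [this]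

/-- The component of `C1`. -/
abbrev d0 : Fin C1.nV := (0 : Fin 1)

lemma c1_cases (v : Fin C1.nV) : v = d0 := Subsingleton.elim (α := Fin 1) _ _

lemma isMarking_C1 : IsMarking A4 C1 (C1.pt d0) where
  cont := Nodal.continuous_pt _ _
  surj := by
    intro y
    obtain ⟨v, z, rfl⟩ := Nodal.exists_pt y
    exact ⟨z, by rw [c1_cases v]⟩
  curves := fun e => Fin.elim0 e
  inj := by
    intro x y h
    rw [Nodal.pt_eq] at h
    rcases h with h | ⟨e, _⟩
    · exact Or.inl h.2
    · exact Fin.elim0 e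
  avoid := fun _ _ e => Fin.elim0 e
  orient := by
    rintro v κ ⟨-, h, -⟩
    have : κ ∘ C1.pt d0 = fun z => z := by
      funext z
      rw [← c1_cases v]
      exact h z
    rw [this]
    exact homotopicToId_id

/-- The interior point. -/
def m1 : SMark A4 where
  C := C1
  φ := C1.pt d0
  marking := isMarking_C1
  stable := by
    intro v
    have h := le_encard (S := special A4 C1 (C1.pt d0) v) a4 a4_inj (fun i =>
      Or.inr ⟨a4 i, a4_mem i, by rw [c1_cases v]⟩)
    refine le_trans ?_ h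
    norm_num

lemma good_C1 : Good C1 := fun e => Fin.elim0 e

theorem m1_mem : AT.mk m1 ∈ AD A4 A4 cube (Homeomorph.refl Sph) := by
  refine ⟨m1, rfl, C1, C1.pt d0, cubeMap C1 good_C1, isMarking_C1,
    isAdmissible_cubeMap good_C1 (fun e => Fin.elim0 e), fun x => rfl, m1, m1, ?_, ?_, rfl⟩
  · exact isStabilization_of_isotopic (σ := m1) (isotopicRel_refl isMarking_C1)
  · exact isStabilization_of_isotopic (σ := m1) (isotopicRel_refl isMarking_C1)

/-! ### The noded point -/

/-- The auxiliary slope. -/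
def slope (p : Sph) : ℝ := 5 / 3 + 4 / 3 * (dir p).re

lemma slope_mem (p : Sph) : 1 / 3 ≤ slope p ∧ slope p ≤ 3 := by
  have h := (abs_le.1 ((Complex.abs_re_le_norm (dir p)).trans (norm_dir_le p)))
  unfold slope
  constructor <;> linarith [h.1, h.2]

/-- The basic radial function. -/
def Lam (p : Sph) : ℝ := 2 * rc p / (rc p + slope p * (1 - rc p))

lemma Lam_den (p : Sph) : 1 / 3 ≤ rc p + slope p * (1 - rc p) := by
  have h1 := (slope_mem p).1
  have h2 := rc_nonneg p
  have h3 := rc_le_one p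
  nlinarith

lemma continuous_Lam : Continuous Lam := by
  rw [continuous_iff_continuousAt]
  intro p
  have hr : ContinuousAt rc p := continuous_rc.continuousAt
  by_cases h0 : p = z0
  · subst h0
    have e0 : Lam z0 = 0 := by simp [Lam]
    show Tendsto Lam (𝓝 z0) (𝓝 (Lam z0))
    rw [e0]
    have h6 : Tendsto (fun q => 6 * rc q) (𝓝 z0) (𝓝 0) := by
      have := (hr.tendsto.const_mul 6)
      simpa using this
    refine squeeze_zero ?_ ?_ h6
    · intro q
      exact div_nonneg (by linarith [rc_nonneg q]) (by linarith [Lam_den q])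
    · intro q
      have hd := Lam_den q
      unfold Lam
      rw [div_le_iff₀ (by linarith)]
      nlinarith [rc_nonneg q]
  by_cases h1 : p = ∞
  · subst h1
    have e0 : Lam ∞ = 2 := by simp [Lam]
    show Tendsto Lam (𝓝 ∞) (𝓝 (Lam ∞))
    rw [e0, tendsto_iff_norm_sub_tendsto_zero]
    have h6 : Tendsto (fun q => 18 * (1 - rc q)) (𝓝 ∞) (𝓝 0) := by
      have := ((tendsto_const_nhds (x := (1 : ℝ))).sub hr.tendsto).const_mul 18
      simpa using this
    refine squeeze_zero (fun q => norm_nonneg _) ?_ h6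
    intro q
    have hd := Lam_den q
    have h7 : Lam q - 2 = -(2 * (slope q * (1 - rc q)) / (rc q + slope q * (1 - rc q))) := by
      unfold Lam
      have : rc q + slope q * (1 - rc q) ≠ 0 := by linarith
      field_simp
      ring
    have h8 : 0 ≤ slope q * (1 - rc q) :=
      mul_nonneg (by linarith [(slope_mem q).1]) (by linarith [rc_le_one q])
    have h9 : slope q * (1 - rc q) ≤ 3 * (1 - rc q) :=
      mul_le_mul_of_nonneg_right (slope_mem q).2 (by linarith [rc_le_one q])
    rw [h7, norm_neg, Real.norm_of_nonneg (div_nonneg (by linarith) (by linarith)),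
      div_le_iff₀ (by linarith)]
    nlinarith [rc_le_one q]
  · have hs : ContinuousAt slope p :=
      continuousAt_const.add (continuousAt_const.mul
        (Complex.continuous_re.continuousAt.comp (continuousAt_dir h0 h1)))
    have hd := Lam_den p
    exact (continuousAt_const.mul hr).div (hr.add (hs.mul (continuousAt_const.sub hr)))
      (by linarith)

lemma Lam_pol {p : Sph} (h0 : p ≠ z0) (h1 : p ≠ ∞) {s : ℝ} (hs : 0 ≤ s) (hs1 : s ≤ 1) :
    Lam (pol p s) = 2 * s / (s + slope p * (1 - s)) := by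
  rcases hs.eq_or_lt with rfl | h2
  · simp [Lam]
  rcases hs1.eq_or_lt with rfl | h3
  · simp [Lam]
  · unfold Lam slope
    rw [rc_pol h0 h1 hs hs1, dir_pol h2 h3]

lemma Rd_Lam : Rd Lam where
  cont := continuous_Lam
  zero := by simp [Lam]
  inf := by simp [Lam]
  mono := by
    intro p h0 h1 s hs r hr hsr
    simp only
    rw [Lam_pol h0 h1 hs.1 hs.2, Lam_pol h0 h1 hr.1 hr.2]
    have ha := (slope_mem p).1
    have hd : ∀ s : ℝ, s ∈ Icc (0 : ℝ) 1 → 0 < s + slope p * (1 - s) := by
      intro s hs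
      nlinarith [hs.1, hs.2]
    rw [div_lt_div_iff₀ (hd s hs) (hd r hr)]
    nlinarith

/-- The radial change of variables on `[0, 2]`. -/
def q2 (s : ℝ) : ℝ := if s ≤ 1 then qq s else 1 + qq (s - 1)

lemma continuous_q2 : Continuous q2 := by
  refine Continuous.if_le continuous_qq ?_ continuous_id continuous_const ?_
  · exact continuous_const.add (continuous_qq.comp (continuous_id.sub continuous_const))
  · rintro s rfl
    simp

lemma q2_strictMonoOn : StrictMonoOn q2 (Icc 0 2) := by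
  intro s hs r hr hsr
  unfold q2
  by_cases h1 : s ≤ 1 <;> by_cases h2 : r ≤ 1
  · rw [if_pos h1, if_pos h2]
    exact qq_strictMonoOn ⟨hs.1, h1⟩ ⟨hr.1, h2⟩ hsr
  · rw [if_pos h1, if_neg h2]
    have h3 := (qq_mem hs.1 h1).2
    have h4 := qq_strictMonoOn (left_mem_Icc.2 zero_le_one)
      (⟨by linarith [not_le.1 h2], by linarith [hr.2]⟩ : r - 1 ∈ Icc (0 : ℝ) 1)
      (by linarith [not_le.1 h2])
    rw [qq_zero] at h4
    linarith
  · exact absurd (hsr.le.trans h2) h1
  · rw [if_neg h1, if_neg h2]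
    have h4 := qq_strictMonoOn
      (⟨by linarith [not_le.1 h1], by linarith [hs.2]⟩ : s - 1 ∈ Icc (0 : ℝ) 1)
      (⟨by linarith [not_le.1 h2], by linarith [hr.2]⟩ : r - 1 ∈ Icc (0 : ℝ) 1)
      (by linarith)
    linarith

/-- The radial function of `φ`. -/
def lf (p : Sph) : ℝ := q2 (Lam p)

/-- The radial function of `ψ`. -/
def lp (p : Sph) : ℝ := Lam (cube p)

lemma Rd_lf : Rd lf where
  cont := continuous_q2.comp continuous_Lam
  zero := by unfold lf; rw [Rd_Lam.zero]; simp [q2]
  inf := by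
    unfold lf q2
    rw [Rd_Lam.inf, if_neg (by norm_num)]
    norm_num
  mono := by
    intro p h0 h1 s hs r hr hsr
    exact q2_strictMonoOn (Rd_Lam.range _) (Rd_Lam.range _) (Rd_Lam.mono p h0 h1 hs hr hsr)

lemma Rd_lp : Rd lp where
  cont := continuous_Lam.comp continuous_cube
  zero := by unfold lp; rw [cube_eq_z0.2 rfl, Rd_Lam.zero]
  inf := by unfold lp; rw [cube_infty, Rd_Lam.inf]
  mono := by
    intro p h0 h1 s hs r hr hsr
    simp only [lp]
    rw [cube_pol, cube_pol]
    refine Rd_Lam.mono (cube p) (by rwa [Ne, cube_eq_z0]) (by rwa [Ne, cube_eq_inf])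
      (qq_mem hs.1 hs.2) (qq_mem hr.1 hr.2) (qq_strictMonoOn hs hr hsr)

lemma Lam_one : Lam ((1 : ℂ) : Sph) = 1 / 2 := by
  simp only [Lam, slope, rc_coe, dir_coe]
  norm_num

lemma Lam_neg_one : Lam ((-1 : ℂ) : Sph) = 3 / 2 := by
  simp only [Lam, slope, rc_coe, dir_coe]
  norm_num

lemma lf_one : lf ((1 : ℂ) : Sph) = 1 / 2 := by
  unfold lf q2
  rw [Lam_one, if_pos (by norm_num), qq_half]

lemma lf_neg_one : lf ((-1 : ℂ) : Sph) = 3 / 2 := by
  unfold lf q2
  rw [Lam_neg_one, if_neg (by norm_num)]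
  have : (3 : ℝ) / 2 - 1 = 1 / 2 := by norm_num
  rw [this, qq_half]; norm_num

lemma lp_one : lp ((1 : ℂ) : Sph) = 1 / 2 := by
  unfold lp
  rw [cube_coe, one_pow, Lam_one]

lemma lp_neg_one : lp ((-1 : ℂ) : Sph) = 3 / 2 := by
  unfold lp
  have : ((-1 : ℂ)) ^ 3 = -1 := by norm_num
  rw [cube_coe, this, Lam_neg_one]

lemma isMarking_lf : IsMarking A4 C2 (Rad lf) :=
  isMarking_Rad Rd_lf (by rw [lf_one]; norm_num) (by rw [lf_neg_one]; norm_num)

lemma isMarking_lp : IsMarking A4 C2 (Rad lp) :=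
  isMarking_Rad Rd_lp (by rw [lp_one]; norm_num) (by rw [lp_neg_one]; norm_num)

lemma Rad_stable {l : Sph → ℝ} (h : Rd l) (h1 : l ((1 : ℂ) : Sph) = 1 / 2)
    (h2 : l ((-1 : ℂ) : Sph) = 3 / 2) (v : Fin C2.nV) : 3 ≤ (special A4 C2 (Rad l) v).encard := by
  have p0 : Rad l z0 = C2.pt c0 z0 := by
    unfold Rad
    rw [h.zero, if_pos (by norm_num), pol_zero]
  have pi : Rad l ∞ = C2.pt c1 ∞ := by
    unfold Rad
    rw [h.inf, if_neg (by norm_num)]
    norm_num
  have p1 : Rad l ((1 : ℂ) : Sph) = C2.pt c0 ((1 : ℂ) : Sph) := by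
    unfold Rad
    rw [h1, if_pos (by norm_num), pol_of_lt _ (by norm_num)]
    congr 2
    norm_num
  have p2 : Rad l ((-1 : ℂ) : Sph) = C2.pt c1 ((-1 : ℂ) : Sph) := by
    unfold Rad
    rw [h2, if_neg (by norm_num), pol_of_lt _ (by norm_num)]
    congr 2
    norm_num
  rcases c2_cases v with rfl | rfl
  · refine le_encard (n := 3) ![z0, ∞, ((1 : ℂ) : Sph)] ?_ ?_
    · intro i j hij
      fin_cases i <;> fin_cases j <;> simp at hij ⊢
    · intro i
      fin_cases i
      · exact Or.inr ⟨z0, a4_mem 0, p0⟩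
      · exact Or.inl ⟨e0, true, rfl⟩
      · exact Or.inr ⟨_, a4_mem 2, p1⟩
  · refine le_encard (n := 3) ![z0, ∞, ((-1 : ℂ) : Sph)] ?_ ?_
    · intro i j hij
      fin_cases i <;> fin_cases j <;> simp at hij ⊢
    · intro i
      fin_cases i
      · exact Or.inl ⟨e0, false, rfl⟩
      · exact Or.inr ⟨∞, a4_mem 1, pi⟩
      · exact Or.inr ⟨_, a4_mem 3, p2⟩

/-- The noded point. -/
def m2 : SMark A4 where
  C := C2
  φ := Rad lf
  marking := isMarking_lf
  stable := Rad_stable Rd_lf lf_one lf_neg_one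

/-- The stabilization of the pullback of the noded point. -/
def m2' : SMark A4 where
  C := C2
  φ := Rad lp
  marking := isMarking_lp
  stable := Rad_stable Rd_lp lp_one lp_neg_one

lemma good_C2 : Good C2 := by
  intro e s
  rw [c2_edge e]
  cases s with
  | true => exact Or.inr rfl
  | false => exact Or.inl rfl

lemma t2_C2 : T2Space C2.Curve := by
  have h0 := exists_collapse_one (C := C2) rfl e0 true
  have h1 := exists_collapse_one (C := C2) rfl e0 false
  obtain ⟨κ0, k0⟩ : ∃ κ, IsCollapse C2 c0 κ := ⟨_, h0⟩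
  obtain ⟨κ1, k1⟩ : ∃ κ, IsCollapse C2 c1 κ := ⟨_, h1⟩
  have hinj : Function.Injective (fun x => (κ0 x, κ1 x)) := by
    have a0 : ∀ z, κ0 (C2.pt c1 z) = ∞ := by
      obtain ⟨p, hp⟩ := k0.2.2 c1 c01.symm
      intro z
      rw [hp, ← hp z0, node_eq1, ← node_eq0, k0.2.1]
    have a1 : ∀ z, κ1 (C2.pt c0 z) = z0 := by
      obtain ⟨p, hp⟩ := k1.2.2 c0 c01
      intro z
      rw [hp, ← hp ∞, node_eq0, ← node_eq1, k1.2.1]
    intro x y hxy
    obtain ⟨v, z, rfl⟩ := Nodal.exists_pt x
    obtain ⟨w, z', rfl⟩ := Nodal.exists_pt y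
    have e1 : κ0 (C2.pt v z) = κ0 (C2.pt w z') := congrArg Prod.fst hxy
    have e2 : κ1 (C2.pt v z) = κ1 (C2.pt w z') := congrArg Prod.snd hxy
    rcases c2_cases v with rfl | rfl <;> rcases c2_cases w with rfl | rfl
    · rw [k0.2.1, k0.2.1] at e1; rw [e1]
    · rw [k0.2.1, a0] at e1
      rw [a1, k1.2.1] at e2
      rw [e1, ← e2, node_eq0, node_eq1]
    · rw [k0.2.1, a0] at e1
      rw [a1, k1.2.1] at e2
      rw [← e1, e2, node_eq0, node_eq1]
    · rw [k1.2.1, k1.2.1] at e2; rw [e2]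
  exact T2Space.of_injective_continuous hinj (k0.1.prodMk k1.1)

lemma semiconj (x : Sph) : cubeMap C2 good_C2 (Rad lp x) = Rad lf (cube x) := by
  unfold Rad lf lp q2
  by_cases h : Lam (cube x) ≤ 1
  · rw [if_pos h, if_pos h, if_pos (qq_mem (Rd_Lam.range _).1 h).2, cubeMap_pt, cube_pol]
  · have h' := not_le.1 h
    have h1 : ¬ (1 + qq (Lam (cube x) - 1) ≤ 1) := by
      have h4 := qq_strictMonoOn (left_mem_Icc.2 zero_le_one)
        (⟨by linarith, by linarith [(Rd_Lam.range (cube x)).2]⟩ :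
          Lam (cube x) - 1 ∈ Icc (0 : ℝ) 1) (by linarith)
      rw [qq_zero] at h4
      linarith
    rw [if_neg h, if_neg h, if_neg h1, cubeMap_pt, cube_pol]
    congr 2
    ring

theorem m2_mem : AT.mk m2 ∈ AD A4 A4 cube (Homeomorph.refl Sph) := by
  refine ⟨m2, rfl, C2, Rad lp, cubeMap C2 good_C2, isMarking_lp,
    isAdmissible_cubeMap good_C2 (fun _ => t2_C2), semiconj, m2', m2, ?_, ?_, ?_⟩
  · exact isStabilization_of_isotopic (σ := m2') (isotopicRel_refl isMarking_lp)
  · exact isStabilization_of_isotopic (σ := m2) (isotopicRel_refl isMarking_lf)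
  · refine Quot.sound ⟨Iso.refl C2, ?_⟩
    exact isotopic_Rad Rd_lp Rd_lf (by rw [lp_one]; norm_num) (by rw [lp_neg_one]; norm_num)
      (by rw [lp_one, lf_one]) (by rw [lp_neg_one, lf_neg_one])

theorem m2_NH : AT.mk m2 ∈ NH := by
  rcases univ_eq (AT.mk m2) with h | h
  · have := mk_mem_Teich h
    exact absurd this (by show (1 : ℕ) ≠ 0; norm_num)
  · exact h

/-- The augmented deformation space of the cube with four marked points is not connected. -/
theorem not_preconnected : ¬ IsPreconnected (AD A4 A4 cube (Homeomorph.refl Sph)) := by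
  intro h
  obtain ⟨x, hx, h1, h2⟩ := h (Teich A4) NH isOpen_Teich isOpen_NH
    (fun x _ => univ_eq x) ⟨AT.mk m1, m1_mem, m1, rfl, rfl⟩ ⟨AT.mk m2, m2_mem, m2_NH⟩
  exact disjoint_on_AD x hx h1 h2

end Pool.Agent.TH230.Aug
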