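import Pool.Agent.TH230.Aug.Radial

/-! Radial markings of the curve with two components, for MP_21db80_an. -/

set_option autoImplicit false

open Set Topology Filter
open scoped OnePoint

noncomputable section

namespace Pool.Agent.TH230.Aug

/-- The curve with two components and one node: the point `∞` of the component `0` is glued with
the point `0` of the component `1`. -/
def C2 : Nodal where
  nV := 2
  nE := 1
  br := fun _ s => cond s (0, ∞) (1, z0)
  br_inj := by
    intro e s e' s' h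
    refine ⟨Subsingleton.elim _ _, ?_⟩
    cases s <;> cases s' <;> simp_all
  card := rfl
  conn := by
    intro v w
    have h01 : ∃ (e : Fin 1) (s : Bool), (cond s ((0 : Fin 2), ∞) ((1 : Fin 2), z0)).1 = 0 ∧
        (cond (!s) ((0 : Fin 2), ∞) ((1 : Fin 2), z0)).1 = 1 := ⟨0, true, rfl, rfl⟩
    have h10 : ∃ (e : Fin 1) (s : Bool), (cond s ((0 : Fin 2), ∞) ((1 : Fin 2), z0)).1 = 1 ∧
        (cond (!s) ((0 : Fin 2), ∞) ((1 : Fin 2), z0)).1 = 0 := ⟨0, false, rfl, rfl⟩
    fin_cases v <;> fin_cases w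
    · exact Relation.ReflTransGen.refl
    · exact Relation.ReflTransGen.single h01
    · exact Relation.ReflTransGen.single h10
    · exact Relation.ReflTransGen.refl

/-- The components of `C2`. -/
abbrev c0 : Fin C2.nV := (0 : Fin 2)
/-- The components of `C2`. -/
abbrev c1 : Fin C2.nV := (1 : Fin 2)
/-- The node of `C2`. -/
abbrev e0 : Fin C2.nE := (0 : Fin 1)

lemma c2_cases (v : Fin C2.nV) : v = c0 ∨ v = c1 := by
  change Fin 2 at v
  fin_cases v
  · exact Or.inl rfl
  · exact Or.inr rfl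

lemma c2_edge (e : Fin C2.nE) : e = e0 := Subsingleton.elim (α := Fin 1) _ _

lemma c01 : c0 ≠ c1 := by decide

lemma node_eq0 : C2.pt c0 ∞ = C2.node e0 := rfl

lemma node_eq1 : C2.pt c1 z0 = C2.node e0 := by
  rw [Nodal.pt_eq_node]; exact ⟨false, rfl⟩

lemma pt0_eq_node {z : Sph} (h : C2.pt c0 z = C2.node e0) : z = ∞ := by
  rw [Nodal.pt_eq_node] at h
  obtain ⟨s, hs⟩ := h
  cases s with
  | true => exact (congrArg Prod.snd hs).symm
  | false => exact absurd (congrArg Prod.fst hs : c1 = c0) c01.symm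

lemma pt1_eq_node {z : Sph} (h : C2.pt c1 z = C2.node e0) : z = z0 := by
  rw [Nodal.pt_eq_node] at h
  obtain ⟨s, hs⟩ := h
  cases s with
  | false => exact (congrArg Prod.snd hs).symm
  | true => exact absurd (congrArg Prod.fst hs : c0 = c1) c01

lemma pt_inj_of {v : Fin C2.nV} {z z' : Sph} (h : C2.pt v z = C2.pt v z') : z = z' := by
  rw [Nodal.pt_eq] at h
  rcases h with h | ⟨e, s, h1, h2⟩
  · exact h.2
  · exfalso
    rw [c2_edge e] at h1 h2
    exact br_ne (C := C2) rfl e0 s (by rw [h1, h2])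

lemma pt01 {z z' : Sph} (h : C2.pt c0 z = C2.pt c1 z') : z = ∞ ∧ z' = z0 := by
  rw [Nodal.pt_eq] at h
  rcases h with h | ⟨e, s, h1, h2⟩
  · exact absurd h.1 c01
  · rw [c2_edge e] at h1 h2
    cases s with
    | true => exact ⟨(congrArg Prod.snd h1).symm, (congrArg Prod.snd h2).symm⟩
    | false => exact absurd (congrArg Prod.fst h1 : c1 = c0) c01.symm

/-- The functions used to define radial markings. -/
structure Rd (l : Sph → ℝ) : Prop where
  cont : Continuous l
  zero : l z0 = 0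
  inf : l ∞ = 2
  mono : ∀ p, p ≠ z0 → p ≠ ∞ → StrictMonoOn (fun s => l (pol p s)) (Icc 0 1)

/-- The radial marking. -/
def Rad (l : Sph → ℝ) (p : Sph) : C2.Curve :=
  if l p ≤ 1 then C2.pt c0 (pol p (l p)) else C2.pt c1 (pol p (l p - 1))

lemma Rad_eq {T : Type*} (l : T → ℝ) (p : T → Sph) :
    (fun t => if l t ≤ 1 then C2.pt c0 (pol (p t) (l t)) else C2.pt c1 (pol (p t) (l t - 1))) =
    fun t => if l t ≤ 1 then C2.pt c0 (pol (p t) (min (l t) 1)) else
      C2.pt c1 (pol (p t) (max (l t - 1) 0)) := by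
  funext t
  by_cases h : l t ≤ 1
  · rw [if_pos h, if_pos h, min_eq_left h]
  · rw [if_neg h, if_neg h, max_eq_left (by linarith [not_le.1 h])]

/-- Continuity of families of radial markings. -/
theorem continuous_Rad {T : Type*} [TopologicalSpace T] {l : T × Sph → ℝ} (hl : Continuous l)
    (h0 : ∀ t, l (t, z0) = 0) (h1 : ∀ t, l (t, ∞) = 2) :
    Continuous fun q : T × Sph => Rad (fun p => l (q.1, p)) q.2 := by
  show Continuous fun q : T × Sph =>
    if l q ≤ 1 then C2.pt c0 (pol q.2 (l q)) else C2.pt c1 (pol q.2 (l q - 1))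
  rw [Rad_eq l (fun q : T × Sph => q.2)]
  refine Continuous.if_le ?_ ?_ hl continuous_const ?_
  · refine (Nodal.continuous_pt C2 c0).comp
      (continuous_pol (s := fun q : T × Sph => min (l q) 1) (hl.min continuous_const) ?_ ?_)
    · intro t; simp [h0]
    · intro t; simp [h1]
  · refine (Nodal.continuous_pt C2 c1).comp
      (continuous_pol (s := fun q : T × Sph => max (l q - 1) 0)
        ((hl.sub continuous_const).max continuous_const) ?_ ?_)
    · intro t; simp [h0]
    · intro t; norm_num [h1]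
  · intro q hq
    simp only [hq, min_self, sub_self, max_self, pol_one, pol_zero]
    rw [node_eq0, node_eq1]

lemma Rd.lt {l : Sph → ℝ} (h : Rd l) {p : Sph} (h0 : p ≠ z0) (h1 : p ≠ ∞) : 0 < l p ∧ l p < 2 := by
  have hm := h.mono p h0 h1
  have hr0 := rc_pos h0
  have hr1 := rc_lt_one h1
  have e0 := hm (left_mem_Icc.2 zero_le_one) ⟨hr0.le, hr1.le⟩ hr0
  have e1 := hm ⟨hr0.le, hr1.le⟩ (right_mem_Icc.2 zero_le_one) hr1
  simp only [pol_zero, pol_one, pol_rc, h.zero, h.inf] at e0 e1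
  exact ⟨e0, e1⟩

lemma Rd.range {l : Sph → ℝ} (h : Rd l) (p : Sph) : 0 ≤ l p ∧ l p ≤ 2 := by
  by_cases h0 : p = z0
  · subst h0; rw [h.zero]; norm_num
  by_cases h1 : p = ∞
  · subst h1; rw [h.inf]; norm_num
  · exact ⟨(h.lt h0 h1).1.le, (h.lt h0 h1).2.le⟩

lemma Rd.eq_z0 {l : Sph → ℝ} (h : Rd l) {p : Sph} (hp : l p = 0) : p = z0 := by
  by_contra h0
  by_cases h1 : p = ∞
  · subst h1; rw [h.inf] at hp; norm_num at hp
  · exact (h.lt h0 h1).1.ne' hp

lemma Rd.eq_inf {l : Sph → ℝ} (h : Rd l) {p : Sph} (hp : l p = 2) : p = ∞ := by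
  by_contra h1
  by_cases h0 : p = z0
  · subst h0; rw [h.zero] at hp; norm_num at hp
  · exact (h.lt h0 h1).2.ne hp

lemma Rd.inj {l : Sph → ℝ} (h : Rd l) {x y : Sph} (hx0 : x ≠ z0) (hx1 : x ≠ ∞)
    (hd : dir x = dir y) (he : l x = l y) : x = y := by
  have hlx := h.lt hx0 hx1
  have hy0 : y ≠ z0 := by rintro rfl; rw [h.zero] at he; linarith
  have hy1 : y ≠ ∞ := by rintro rfl; rw [h.inf] at he; linarith
  have hm := (h.mono x hx0 hx1).injOn
  have e1 : l (pol x (rc x)) = l (pol x (rc y)) := by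
    rw [pol_congr hd (rc y), pol_rc, pol_rc, he]
  have e2 := hm ⟨rc_nonneg x, rc_le_one x⟩ ⟨rc_nonneg y, rc_le_one y⟩ e1
  rw [← pol_rc x, ← pol_rc y, e2, pol_congr hd]

lemma Rd.surj {l : Sph → ℝ} (h : Rd l) {p : Sph} (h0 : p ≠ z0) (h1 : p ≠ ∞) {r : ℝ}
    (hr0 : 0 ≤ r) (hr1 : r ≤ 2) : ∃ s ∈ Icc (0 : ℝ) 1, l (pol p s) = r := by
  have hc : ContinuousOn (fun s => l (pol p s)) (Icc 0 1) :=
    (h.cont.comp (continuous_pol_left h0 h1)).continuousOn
  have := intermediate_value_Icc zero_le_one hc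
  simp only [pol_zero, pol_one, h.zero, h.inf] at this
  exact this ⟨hr0, hr1⟩

/-- Points with prescribed direction and value. -/
lemma Rd.exists_pt {l : Sph → ℝ} (h : Rd l) {p : Sph} (h0 : p ≠ z0) (h1 : p ≠ ∞) {r : ℝ}
    (hr0 : 0 < r) (hr1 : r < 2) : ∃ x, x ≠ z0 ∧ x ≠ ∞ ∧ l x = r ∧ dir x = dir p := by
  obtain ⟨s, hs, he⟩ := h.surj h0 h1 hr0.le hr1.le
  have hs0 : s ≠ 0 := by rintro rfl; rw [pol_zero, h.zero] at he; linarith
  have hs1 : s ≠ 1 := by rintro rfl; rw [pol_one, h.inf] at he; linarith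
  refine ⟨pol p s, ?_, ?_, he, dir_pol (lt_of_le_of_ne hs.1 (Ne.symm hs0)) (lt_of_le_of_ne hs.2 hs1)⟩
  · intro h2; rw [h2, h.zero] at he; linarith
  · intro h2; rw [h2, h.inf] at he; linarith

lemma pol_ne_z0 {p : Sph} (h0 : p ≠ z0) (h1 : p ≠ ∞) {s : ℝ} (hs : 0 ≤ s) (hs1 : s ≤ 1)
    (h : pol p s = z0) : s = 0 := by
  rw [← rc_pol h0 h1 hs hs1, h, rc_z0]

lemma pol_eq_inf {p : Sph} {s : ℝ} (hs1 : s ≤ 1) (h : pol p s = ∞) : s = 1 := by
  by_contra hne
  rw [pol_of_lt p (lt_of_le_of_ne hs1 hne)] at h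
  exact OnePoint.coe_ne_infty _ h

/-- Injectivity of polar coordinates. -/
lemma pol_inj {x y : Sph} (hx0 : x ≠ z0) (hx1 : x ≠ ∞) (hy0 : y ≠ z0) (hy1 : y ≠ ∞) {s r : ℝ}
    (hs : 0 < s) (hs1 : s < 1) (hr : 0 ≤ r) (hr1 : r ≤ 1) (h : pol x s = pol y r) :
    s = r ∧ dir x = dir y := by
  have h2 : s = r := by rw [← rc_pol hx0 hx1 hs.le hs1.le, h, rc_pol hy0 hy1 hr hr1]
  subst h2
  refine ⟨rfl, ?_⟩
  rw [← dir_pol (p := x) hs hs1, h, dir_pol hs hs1]

lemma Rad_surj {l : Sph → ℝ} (h : Rd l) : Function.Surjective (Rad l) := by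
  intro y
  obtain ⟨v, w, rfl⟩ := Nodal.exists_pt y
  have hone : ((1 : ℂ) : Sph) ≠ z0 := by simp
  have hone' : ((1 : ℂ) : Sph) ≠ ∞ := by simp
  have hn : ∃ x, Rad l x = C2.node e0 := by
    obtain ⟨x, -, -, hx, -⟩ := h.exists_pt hone hone' (r := 1) (by norm_num) (by norm_num)
    refine ⟨x, ?_⟩
    unfold Rad
    rw [if_pos hx.le, hx, pol_one, node_eq0]
  rcases c2_cases v with rfl | rfl
  · by_cases w0 : w = z0
    · refine ⟨z0, ?_⟩
      unfold Rad
      rw [h.zero, if_pos (by norm_num), pol_zero, w0]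
    by_cases w1 : w = ∞
    · rw [w1, node_eq0]; exact hn
    obtain ⟨x, hx0, hx1, hl, hd⟩ := h.exists_pt w0 w1 (r := rc w) (rc_pos w0)
      (by linarith [rc_le_one w])
    refine ⟨x, ?_⟩
    unfold Rad
    rw [hl, if_pos (rc_le_one w), pol_congr hd, pol_rc]
  · by_cases w0 : w = z0
    · rw [w0, node_eq1]; exact hn
    by_cases w1 : w = ∞
    · refine ⟨∞, ?_⟩
      unfold Rad
      rw [h.inf, if_neg (by norm_num), w1]
      norm_num
    obtain ⟨x, hx0, hx1, hl, hd⟩ := h.exists_pt w0 w1 (r := rc w + 1)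
      (by linarith [rc_pos w0]) (by linarith [rc_lt_one w1])
    refine ⟨x, ?_⟩
    unfold Rad
    rw [hl, if_neg (by linarith [rc_pos w0]), add_sub_cancel_right, pol_congr hd, pol_rc]

lemma Rad_eq_node {l : Sph → ℝ} (h : Rd l) {x : Sph} : Rad l x = C2.node e0 ↔ l x = 1 := by
  constructor
  · intro hx
    unfold Rad at hx
    by_cases hl : l x ≤ 1
    · rw [if_pos hl] at hx
      exact pol_eq_inf hl (pt0_eq_node hx)
    · rw [if_neg hl] at hx
      have h1 := pt1_eq_node hx
      have hx0 : x ≠ z0 := by rintro rfl; rw [h.zero] at hl; norm_num at hl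
      have h2 := not_le.1 hl
      by_cases hx1 : x = ∞
      · subst hx1
        rw [h.inf] at h1
        norm_num at h1
      · have h3 := (h.lt hx0 hx1).2
        have := pol_ne_z0 hx0 hx1 (by linarith) (by linarith) h1
        linarith
  · intro hx
    unfold Rad
    rw [if_pos hx.le, hx, pol_one, node_eq0]

lemma Rad_inj {l : Sph → ℝ} (h : Rd l) {x y : Sph} (hxy : Rad l x = Rad l y) :
    x = y ∨ Rad l x = C2.node e0 := by
  by_cases hn : Rad l x = C2.node e0
  · exact Or.inr hn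
  left
  have hn' : Rad l y ≠ C2.node e0 := fun h' => hn (hxy.trans h')
  rw [Rad_eq_node h] at hn
  rw [Ne, Rad_eq_node h] at hn'
  -- reduce to points different from zero and infinity
  have key : ∀ x y : Sph, l x ≠ 1 → l y ≠ 1 → Rad l x = Rad l y → x = z0 ∨ x = ∞ → x = y := by
    intro x y hx hy hxy hx'
    rcases hx' with rfl | rfl
    · unfold Rad at hxy
      rw [h.zero, if_pos zero_le_one, pol_zero] at hxy
      by_cases hl : l y ≤ 1
      · rw [if_pos hl] at hxy
        have h1 := pt_inj_of hxy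
        by_cases y1 : y = ∞
        · subst y1; rw [h.inf] at hl; norm_num at hl
        by_cases y0 : y = z0
        · exact y0.symm
        have := pol_ne_z0 y0 y1 (h.range y).1 hl h1.symm
        exact absurd this (h.lt y0 y1).1.ne'
      · rw [if_neg hl] at hxy
        have := (pt01 hxy).1
        exact absurd this (OnePoint.coe_ne_infty _)
    · unfold Rad at hxy
      rw [h.inf, if_neg (by norm_num)] at hxy
      have e1 : (2 : ℝ) - 1 = 1 := by norm_num
      rw [e1, pol_one] at hxy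
      by_cases hl : l y ≤ 1
      · rw [if_pos hl] at hxy
        have := (pt01 hxy.symm).2
        exact absurd this (OnePoint.infty_ne_coe _)
      · rw [if_neg hl] at hxy
        have h1 := pt_inj_of hxy
        have h2 := pol_eq_inf (by linarith [(h.range y).2]) h1.symm
        exact (h.eq_inf (by linarith)).symm
  by_cases hx' : x = z0 ∨ x = ∞
  · exact key x y hn hn' hxy hx'
  by_cases hy' : y = z0 ∨ y = ∞
  · exact (key y x hn' hn hxy.symm hy').symm
  rw [not_or] at hx' hy'
  have hlx := h.lt hx'.1 hx'.2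
  have hly := h.lt hy'.1 hy'.2
  unfold Rad at hxy
  by_cases h1 : l x ≤ 1 <;> by_cases h2 : l y ≤ 1
  · rw [if_pos h1, if_pos h2] at hxy
    obtain ⟨h3, h4⟩ := pol_inj hx'.1 hx'.2 hy'.1 hy'.2 hlx.1 (lt_of_le_of_ne h1 hn) hly.1.le h2
      (pt_inj_of hxy)
    exact h.inj hx'.1 hx'.2 h4 h3
  · rw [if_pos h1, if_neg h2] at hxy
    exact absurd (pol_eq_inf h1 (pt01 hxy).1) hn
  · rw [if_neg h1, if_pos h2] at hxy
    exact absurd (pol_eq_inf h2 (pt01 hxy.symm).1) hn'
  · rw [if_neg h1, if_neg h2] at hxy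
    have h1' := not_le.1 h1
    have h2' := not_le.1 h2
    obtain ⟨h3, h4⟩ := pol_inj hx'.1 hx'.2 hy'.1 hy'.2 (by linarith) (by linarith) (by linarith)
      (by linarith) (pt_inj_of hxy)
    exact h.inj hx'.1 hx'.2 h4 (by linarith)

lemma Rad_curve {l : Sph → ℝ} (h : Rd l) :
    ∃ γ : Circle → Sph, Continuous γ ∧ Function.Injective γ ∧ range γ = Rad l ⁻¹' {C2.node e0} := by
  let K : Set Sph := {x | l x = 1}
  have hK : IsCompact K := (isClosed_eq h.cont continuous_const).isCompact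
  have : CompactSpace K := isCompact_iff_compactSpace.1 hK
  have hne0 : ∀ x ∈ K, x ≠ z0 := by
    rintro x hx rfl
    have : l z0 = 1 := hx
    rw [h.zero] at this; norm_num at this
  have hne1 : ∀ x ∈ K, x ≠ ∞ := by
    rintro x hx rfl
    have : l ∞ = 1 := hx
    rw [h.inf] at this; norm_num at this
  let g : K → Circle := fun x => ⟨dir x.1, by
    exact mem_sphere_zero_iff_norm.2 (norm_dir (hne0 _ x.2) (hne1 _ x.2))⟩
  have hg : Continuous g := by
    refine Continuous.subtype_mk ?_ _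
    rw [continuous_iff_continuousAt]
    intro x
    exact (continuousAt_dir (hne0 _ x.2) (hne1 _ x.2)).comp continuous_subtype_val.continuousAt
  have hgb : Function.Bijective g := by
    constructor
    · intro x y hxy
      apply Subtype.ext
      have h1 : dir x.1 = dir y.1 := congrArg Subtype.val hxy
      exact h.inj (hne0 _ x.2) (hne1 _ x.2) h1 (x.2.trans y.2.symm)
    · intro u
      have hu : ‖(u : ℂ)‖ = 1 := Circle.norm_coe u
      have hu0 : (u : ℂ) ≠ 0 := by intro h'; rw [h'] at hu; simp at hu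
      have w0 : ((u : ℂ) : Sph) ≠ z0 := by
        intro h'; exact hu0 (OnePoint.coe_injective h')
      obtain ⟨x, hx0, hx1, hl, hd⟩ := h.exists_pt w0 (OnePoint.coe_ne_infty _) (r := 1)
        (by norm_num) (by norm_num)
      refine ⟨⟨x, hl⟩, ?_⟩
      apply Subtype.ext
      show dir x = (u : ℂ)
      rw [hd, dir_coe, hu]; simp
  let G : K ≃ₜ Circle := Continuous.homeoOfEquivCompactToT2 (f := Equiv.ofBijective g hgb) hg
  refine ⟨fun u => (G.symm u).1, continuous_subtype_val.comp G.symm.continuous, ?_, ?_⟩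
  · intro u v huv
    exact G.symm.injective (Subtype.ext huv)
  · ext x
    constructor
    · rintro ⟨u, rfl⟩
      exact (Rad_eq_node h).2 (G.symm u).2
    · intro hx
      have hx' : l x = 1 := (Rad_eq_node h).1 hx
      exact ⟨G ⟨x, hx'⟩, by simp⟩

/-- Homotopies to the identity. -/
lemma homotopic_pol {s : Sph → ℝ} (hs : Continuous s) (h0 : s z0 = 0) (h1 : s ∞ = 1) :
    HomotopicToId (fun p => pol p (s p)) := by
  refine ⟨fun q => pol q.2 ((1 - (q.1 : ℝ)) * rc q.2 + q.1 * s q.2), ?_, ?_, ?_⟩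
  · refine continuous_pol (T := unitInterval)
      (s := fun q => (1 - (q.1 : ℝ)) * rc q.2 + q.1 * s q.2) ?_ ?_ ?_
    · have h2 : Continuous fun q : unitInterval × Sph => (q.1 : ℝ) :=
        continuous_subtype_val.comp continuous_fst
      exact ((continuous_const.sub h2).mul (continuous_rc.comp continuous_snd)).add
        (h2.mul (hs.comp continuous_snd))
    · intro t
      show (1 - (t : ℝ)) * rc z0 + t * s z0 = 0
      rw [h0, rc_z0]; ring
    · intro t
      show (1 - (t : ℝ)) * rc ∞ + t * s ∞ = 1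
      rw [h1, rc_infty]; ring
  · intro z
    show pol z ((1 - ((0 : unitInterval) : ℝ)) * rc z + ((0 : unitInterval) : ℝ) * s z) = z
    rw [Set.Icc.coe_zero, sub_zero, one_mul, zero_mul, add_zero, pol_rc]
  · intro z
    show pol z ((1 - ((1 : unitInterval) : ℝ)) * rc z + ((1 : unitInterval) : ℝ) * s z) = _
    rw [Set.Icc.coe_one, sub_self, zero_mul, one_mul, zero_add]

/-- Radial markings are markings. -/
theorem isMarking_Rad {l : Sph → ℝ} (h : Rd l) (h1 : l ((1 : ℂ) : Sph) ≠ 1)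
    (h2 : l ((-1 : ℂ) : Sph) ≠ 1) : IsMarking A4 C2 (Rad l) where
  cont := by
    have h3 := continuous_Rad (T := Unit) (l := fun q => l q.2) (h.cont.comp continuous_snd)
      (fun _ => h.zero) (fun _ => h.inf)
    exact h3.comp (continuous_const.prodMk continuous_id : Continuous fun p : Sph => (((), p)))
  surj := Rad_surj h
  curves := by
    intro e
    rw [c2_edge e]
    exact Rad_curve h
  inj := by
    intro x y hxy
    rcases Rad_inj h hxy with h3 | h3
    · exact Or.inl h3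
    · exact Or.inr ⟨e0, h3⟩
  avoid := by
    rintro x ⟨i, rfl⟩ e he
    rw [c2_edge e, Rad_eq_node h] at he
    fin_cases i
    · have : l z0 = 1 := he
      rw [h.zero] at this; norm_num at this
    · have : l ∞ = 1 := he
      rw [h.inf] at this; norm_num at this
    · exact h1 he
    · exact h2 he
  orient := by
    rintro v κ ⟨-, k1, k2⟩
    rcases c2_cases v with rfl | rfl
    · obtain ⟨p, hp⟩ := k2 c1 c01.symm
      have hpi : p = ∞ := by rw [← k1 ∞, node_eq0, ← node_eq1, hp]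
      have he : κ ∘ Rad l = fun p => pol p (min (l p) 1) := by
        funext x
        simp only [Function.comp, Rad]
        by_cases hl : l x ≤ 1
        · rw [if_pos hl, k1, min_eq_left hl]
        · rw [if_neg hl, hp, hpi, min_eq_right (not_le.1 hl).le, pol_one]
      rw [he]
      refine homotopic_pol (h.cont.min continuous_const) ?_ ?_
      · rw [h.zero]; simp
      · rw [h.inf]; norm_num
    · obtain ⟨p, hp⟩ := k2 c0 c01
      have hpi : p = z0 := by rw [← k1 z0, node_eq1, ← node_eq0, hp]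
      have he : κ ∘ Rad l = fun p => pol p (max (l p - 1) 0) := by
        funext x
        simp only [Function.comp, Rad]
        by_cases hl : l x ≤ 1
        · rw [if_pos hl, hp, hpi, max_eq_right (by linarith), pol_zero]
        · rw [if_neg hl, k1, max_eq_left (by linarith [not_le.1 hl])]
      rw [he]
      refine homotopic_pol ((h.cont.sub continuous_const).max continuous_const) ?_ ?_
      · rw [h.zero]; norm_num
      · rw [h.inf]; norm_num

/-- Convexity. -/
lemma Rd.convex {l l' : Sph → ℝ} (h : Rd l) (h' : Rd l') {t : ℝ} (ht : t ∈ Icc (0 : ℝ) 1) :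
    Rd (fun p => (1 - t) * l p + t * l' p) where
  cont := (continuous_const.mul h.cont).add (continuous_const.mul h'.cont)
  zero := by rw [h.zero, h'.zero]; ring
  inf := by rw [h.inf, h'.inf]; ring
  mono := by
    intro p h0 h1 s hs r hr hsr
    have e1 := h.mono p h0 h1 hs hr hsr
    have e2 := h'.mono p h0 h1 hs hr hsr
    simp only at e1 e2 ⊢
    rcases ht.1.eq_or_lt with h3 | h3
    · rw [← h3]; simpa using e1
    · have h4 := mul_lt_mul_of_pos_left e2 h3
      have h5 := mul_le_mul_of_nonneg_left e1.le (by linarith [ht.2] : (0 : ℝ) ≤ 1 - t)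
      linarith

/-- Radial markings with the same values at the marked points are isotopic. -/
theorem isotopic_Rad {l l' : Sph → ℝ} (h : Rd l) (h' : Rd l') (h1 : l ((1 : ℂ) : Sph) ≠ 1)
    (h2 : l ((-1 : ℂ) : Sph) ≠ 1) (e1 : l ((1 : ℂ) : Sph) = l' ((1 : ℂ) : Sph))
    (e2 : l ((-1 : ℂ) : Sph) = l' ((-1 : ℂ) : Sph)) : IsotopicRel A4 C2 (Rad l) (Rad l') := by
  have hA : ∀ t : ℝ, ∀ x ∈ A4, (1 - t) * l x + t * l' x = l x := by
    rintro t x ⟨i, rfl⟩
    fin_cases i
    · show (1 - t) * l z0 + t * l' z0 = l z0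
      rw [h.zero, h'.zero]; ring
    · show (1 - t) * l ∞ + t * l' ∞ = l ∞
      rw [h.inf, h'.inf]; ring
    · show (1 - t) * l ((1 : ℂ) : Sph) + t * l' ((1 : ℂ) : Sph) = l ((1 : ℂ) : Sph)
      rw [← e1]; ring
    · show (1 - t) * l ((-1 : ℂ) : Sph) + t * l' ((-1 : ℂ) : Sph) = l ((-1 : ℂ) : Sph)
      rw [← e2]; ring
  refine ⟨fun q => Rad (fun p => (1 - (q.1 : ℝ)) * l p + q.1 * l' p) q.2, ?_, ?_, ?_, ?_, ?_⟩
  · refine continuous_Rad (T := unitInterval)
      (l := fun q => (1 - (q.1 : ℝ)) * l q.2 + q.1 * l' q.2) ?_ ?_ ?_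
    · have h2 : Continuous fun q : unitInterval × Sph => (q.1 : ℝ) :=
        continuous_subtype_val.comp continuous_fst
      exact ((continuous_const.sub h2).mul (h.cont.comp continuous_snd)).add
        (h2.mul (h'.cont.comp continuous_snd))
    · intro t
      show (1 - (t : ℝ)) * l z0 + t * l' z0 = 0
      rw [h.zero, h'.zero]; ring
    · intro t
      show (1 - (t : ℝ)) * l ∞ + t * l' ∞ = 2
      rw [h.inf, h'.inf]; ring
  · intro x
    show Rad (fun p => (1 - ((0 : unitInterval) : ℝ)) * l p + ((0 : unitInterval) : ℝ) * l' p) x = _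
    have : (fun p => (1 - ((0 : unitInterval) : ℝ)) * l p + ((0 : unitInterval) : ℝ) * l' p) = l := by
      funext p; rw [Set.Icc.coe_zero]; ring
    rw [this]
  · intro x
    show Rad (fun p => (1 - ((1 : unitInterval) : ℝ)) * l p + ((1 : unitInterval) : ℝ) * l' p) x = _
    have : (fun p => (1 - ((1 : unitInterval) : ℝ)) * l p + ((1 : unitInterval) : ℝ) * l' p) =
        l' := by
      funext p; rw [Set.Icc.coe_one]; ring
    rw [this]
  · intro t
    refine isMarking_Rad (h.convex h' t.2) ?_ ?_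
    · show (1 - (t : ℝ)) * l ((1 : ℂ) : Sph) + t * l' ((1 : ℂ) : Sph) ≠ 1
      rw [show (1 - (t : ℝ)) * l ((1 : ℂ) : Sph) + t * l' ((1 : ℂ) : Sph) = l ((1 : ℂ) : Sph) from
        hA t _ (a4_mem 2)]
      exact h1
    · show (1 - (t : ℝ)) * l ((-1 : ℂ) : Sph) + t * l' ((-1 : ℂ) : Sph) ≠ 1
      rw [show (1 - (t : ℝ)) * l ((-1 : ℂ) : Sph) + t * l' ((-1 : ℂ) : Sph) =
        l ((-1 : ℂ) : Sph) from hA t _ (a4_mem 3)]
      exact h2
  · intro t x hx
    show Rad (fun p => (1 - (t : ℝ)) * l p + t * l' p) x = Rad l x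
    unfold Rad
    simp only [hA t x hx]

end Pool.Agent.TH230.Aug
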