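import Pool.Agent.TH230.Aug.Open

/-! Radial coordinates on the sphere, for MP_21db80_an. -/

set_option autoImplicit false

open Set Topology Filter
open scoped OnePoint

noncomputable section

namespace Pool.Agent.TH230.Aug

/-- The point zero of the sphere. -/
abbrev z0 : Sph := ((0 : ℂ) : Sph)

/-- The direction. -/
def dir (p : Sph) : ℂ := p.elim 0 (fun z => z / ‖z‖)

/-- The radial coordinate, in `[0, 1]`. -/
def rc (p : Sph) : ℝ := p.elim 1 (fun z => ‖z‖ / (1 + ‖z‖))

/-- The point with the direction of `p` and radial coordinate `s`. -/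
def pol (p : Sph) (s : ℝ) : Sph := toSph (s * dir p) (1 - s)

@[simp] lemma dir_infty : dir ∞ = 0 := rfl
@[simp] lemma dir_coe (z : ℂ) : dir (z : Sph) = z / ‖z‖ := rfl
@[simp] lemma rc_infty : rc ∞ = 1 := rfl
@[simp] lemma rc_coe (z : ℂ) : rc (z : Sph) = ‖z‖ / (1 + ‖z‖) := rfl

lemma norm_dir {p : Sph} (h0 : p ≠ z0) (h1 : p ≠ ∞) : ‖dir p‖ = 1 := by
  induction p using OnePoint.rec with
  | infty => exact absurd rfl h1
  | coe z =>
    have hz : z ≠ 0 := fun h => h0 (by rw [h])
    rw [dir_coe, norm_div, Complex.norm_real, norm_norm, div_self (norm_ne_zero_iff.2 hz)]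

lemma norm_dir_le (p : Sph) : ‖dir p‖ ≤ 1 := by
  by_cases h0 : p = z0
  · subst h0; simp
  · by_cases h1 : p = ∞
    · subst h1; simp
    · exact (norm_dir h0 h1).le

lemma continuousAt_dir {p : Sph} (h0 : p ≠ z0) (h1 : p ≠ ∞) : ContinuousAt dir p := by
  induction p using OnePoint.rec with
  | infty => exact absurd rfl h1
  | coe z =>
    have hz : z ≠ 0 := fun h => h0 (by rw [h])
    rw [OnePoint.continuousAt_coe]
    show ContinuousAt (fun z : ℂ => z / (‖z‖ : ℂ)) z
    refine continuousAt_id.div ?_ (by simpa using hz)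
    exact (Complex.continuous_ofReal.comp continuous_norm).continuousAt

lemma continuous_rc : Continuous rc := by
  rw [continuous_iff_continuousAt]
  intro p
  induction p using OnePoint.rec with
  | infty =>
    rw [OnePoint.continuousAt_infty', Filter.coclosedCompact_eq_cocompact]
    show Tendsto (fun z : ℂ => ‖z‖ / (1 + ‖z‖)) (cocompact ℂ) (𝓝 1)
    have h1 : Tendsto (fun z : ℂ => 1 - 1 / (1 + ‖z‖)) (cocompact ℂ) (𝓝 (1 - 0)) := by
      refine tendsto_const_nhds.sub ?_
      have h2 : Tendsto (fun z : ℂ => 1 + ‖z‖) (cocompact ℂ) atTop :=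
        tendsto_atTop_add_const_left _ _ tendsto_norm_cocompact_atTop
      exact tendsto_const_nhds.div_atTop h2
    rw [sub_zero] at h1
    refine h1.congr fun z => ?_
    have : 1 + ‖z‖ ≠ 0 := by positivity
    field_simp
    ring
  | coe z =>
    rw [OnePoint.continuousAt_coe]
    show ContinuousAt (fun z : ℂ => ‖z‖ / (1 + ‖z‖)) z
    have : 1 + ‖z‖ ≠ 0 := by positivity
    exact continuousAt_id.norm.div (continuousAt_const.add continuousAt_id.norm) this

lemma rc_nonneg (p : Sph) : 0 ≤ rc p := by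
  induction p using OnePoint.rec with
  | infty => simp
  | coe z => rw [rc_coe]; positivity

lemma rc_le_one (p : Sph) : rc p ≤ 1 := by
  induction p using OnePoint.rec with
  | infty => simp
  | coe z => rw [rc_coe, div_le_one (by positivity)]; linarith

lemma rc_pos {p : Sph} (h0 : p ≠ z0) : 0 < rc p := by
  induction p using OnePoint.rec with
  | infty => simp
  | coe z =>
    have hz : z ≠ 0 := fun h => h0 (by rw [h])
    have := norm_pos_iff.2 hz
    rw [rc_coe]; positivity

lemma rc_lt_one {p : Sph} (h1 : p ≠ ∞) : rc p < 1 := by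
  induction p using OnePoint.rec with
  | infty => exact absurd rfl h1
  | coe z =>
    rw [rc_coe, div_lt_one (by positivity)]; linarith

@[simp] lemma rc_z0 : rc z0 = 0 := by simp

lemma pol_rc (p : Sph) : pol p (rc p) = p := by
  induction p using OnePoint.rec with
  | infty => simp [pol, toSph]
  | coe z =>
    have h1 : (1 : ℂ) + (‖z‖ : ℂ) ≠ 0 := by
      have : (1 : ℝ) + ‖z‖ ≠ 0 := by positivity
      exact_mod_cast this
    have h2 : (1 : ℂ) - ((‖z‖ / (1 + ‖z‖) : ℝ) : ℂ) = 1 / (1 + ‖z‖) := by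
      push_cast
      field_simp
      ring
    unfold pol toSph
    rw [rc_coe, h2, if_neg (by exact div_ne_zero one_ne_zero h1)]
    congr 1
    rw [dir_coe]
    by_cases hz : z = 0
    · subst hz; simp
    · have h3 : (‖z‖ : ℂ) ≠ 0 := by simpa using hz
      push_cast
      field_simp

@[simp] lemma pol_one (p : Sph) : pol p 1 = ∞ := by simp [pol, toSph]
@[simp] lemma pol_zero (p : Sph) : pol p 0 = z0 := by simp [pol, toSph]

lemma pol_of_lt (p : Sph) {s : ℝ} (h : s < 1) :
    pol p s = (((s / (1 - s) : ℝ) * dir p : ℂ) : Sph) := by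
  have h1 : (1 : ℂ) - s ≠ 0 := by
    have : (1 : ℝ) - s ≠ 0 := by linarith
    exact_mod_cast this
  unfold pol toSph
  rw [if_neg h1]
  congr 1
  push_cast
  field_simp

/-- The key continuity lemma. -/
theorem continuous_pol {T : Type*} [TopologicalSpace T] {s : T × Sph → ℝ} (hs : Continuous s)
    (h0 : ∀ t, s (t, z0) = 0) (h1 : ∀ t, s (t, ∞) = 1) :
    Continuous fun q : T × Sph => pol q.2 (s q) := by
  rw [continuous_iff_continuousAt]
  rintro ⟨t, p⟩
  have hsc : ContinuousAt (fun q : T × Sph => (s q : ℂ)) (t, p) :=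
    (Complex.continuous_ofReal.comp hs).continuousAt
  by_cases hp : p = ∞
  · subst hp
    have hb : ContinuousAt (fun q : T × Sph => (1 - (s q : ℂ)) * (starRingEnd ℂ) (dir q.2))
        (t, ∞) := by
      have e1 : (1 - (s (t, ∞) : ℂ)) * (starRingEnd ℂ) (dir ∞) = 0 := by
        rw [h1 t]; simp
      show Tendsto _ _ (𝓝 ((1 - (s (t, ∞) : ℂ)) * (starRingEnd ℂ) (dir ∞)))
      rw [e1]
      have h3 : Tendsto (fun q : T × Sph => ‖(1 : ℂ) - (s q : ℂ)‖) (𝓝 (t, ∞)) (𝓝 0) := by
        have h4 : Tendsto (fun q : T × Sph => ‖(1 : ℂ) - (s q : ℂ)‖) (𝓝 (t, ∞))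
            (𝓝 ‖(1 : ℂ) - (s (t, ∞) : ℂ)‖) := (tendsto_const_nhds.sub hsc).norm
        rw [h1 t] at h4
        simpa using h4
      refine squeeze_zero_norm (fun q => ?_) h3
      rw [norm_mul, RCLike.norm_conj]
      exact mul_le_of_le_one_right (norm_nonneg _) (norm_dir_le _)
    have h2 := continuousAt_toSph hsc hb (by
      rintro ⟨h, -⟩
      rw [h1 t] at h
      simp at h)
    refine h2.congr ?_
    have h3 : ∀ᶠ q : T × Sph in 𝓝 (t, ∞), q.2 ≠ z0 :=
      continuousAt_snd.eventually_ne (OnePoint.infty_ne_coe _)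
    filter_upwards [h3] with q hq
    obtain ⟨t', p'⟩ := q
    by_cases hp' : p' = ∞
    · subst hp'
      show toSph _ _ = pol _ _
      rw [h1 t']
      simp [toSph]
    · have h5 := norm_dir hq hp'
      simp only at h5
      have h6 : dir p' * (starRingEnd ℂ) (dir p') = 1 := by
        rw [Complex.mul_conj, Complex.normSq_eq_norm_sq, h5]; simp
      have h7 : (starRingEnd ℂ) (dir p') ≠ 0 := fun h => by
        rw [h, mul_zero] at h6; exact zero_ne_one h6
      show toSph (s (t', p')) ((1 - (s (t', p') : ℂ)) * (starRingEnd ℂ) (dir p')) = pol p' (s (t', p'))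
      unfold pol
      rw [← toSph_smul (a := (s (t', p') : ℂ) * dir p') h7]
      congr 1
      · rw [mul_comm, mul_assoc, h6, mul_one]
      · rw [mul_comm]
  · by_cases hp0 : p = z0
    · subst hp0
      have ha : ContinuousAt (fun q : T × Sph => (s q : ℂ) * dir q.2) (t, z0) := by
        have e1 : (s (t, z0) : ℂ) * dir z0 = 0 := by rw [h0 t]; simp
        show Tendsto _ _ (𝓝 ((s (t, z0) : ℂ) * dir z0))
        rw [e1]
        have h3 : Tendsto (fun q : T × Sph => ‖(s q : ℂ)‖) (𝓝 (t, z0)) (𝓝 0) := by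
          have h4 := hsc.norm.tendsto
          rw [h0 t] at h4
          simpa using h4
        refine squeeze_zero_norm (fun q => ?_) h3
        rw [norm_mul]
        exact mul_le_of_le_one_right (norm_nonneg _) (norm_dir_le _)
      refine continuousAt_toSph ha (continuousAt_const.sub hsc) ?_
      rintro ⟨-, h⟩
      rw [h0 t] at h
      simp at h
    · have ha : ContinuousAt (fun q : T × Sph => (s q : ℂ) * dir q.2) (t, p) :=
        hsc.mul (ContinuousAt.comp (f := fun q : T × Sph => q.2) (g := dir)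
          (continuousAt_dir hp0 hp) continuousAt_snd)
      refine continuousAt_toSph ha (continuousAt_const.sub hsc) ?_
      rintro ⟨ha, hb⟩
      have h3 : (s (t, p) : ℂ) = 1 := (sub_eq_zero.1 hb).symm
      simp only at ha
      rw [h3, one_mul] at ha
      have := norm_dir hp0 hp
      rw [ha] at this
      simp at this

lemma continuous_pol_left {p : Sph} (h0 : p ≠ z0) (h1 : p ≠ ∞) : Continuous (pol p) := by
  rw [continuous_iff_continuousAt]
  intro s
  have hs : ContinuousAt (fun s : ℝ => (s : ℂ)) s := Complex.continuous_ofReal.continuousAt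
  refine continuousAt_toSph (hs.mul continuousAt_const) (continuousAt_const.sub hs) ?_
  rintro ⟨ha, hb⟩
  have h3 : (s : ℂ) = 1 := (sub_eq_zero.1 hb).symm
  rw [h3, one_mul] at ha
  have := norm_dir h0 h1
  rw [ha] at this
  simp at this

lemma dir_pol {p : Sph} {s : ℝ} (hs : 0 < s) (hs1 : s < 1) : dir (pol p s) = dir p := by
  by_cases h0 : p = z0
  · subst h0
    rw [pol_of_lt _ hs1]; simp
  by_cases h1 : p = ∞
  · subst h1
    rw [pol_of_lt _ hs1]; simp
  rw [pol_of_lt _ hs1, dir_coe, norm_mul, norm_dir h0 h1, mul_one, Complex.norm_real]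
  have h2 : 0 < s / (1 - s) := div_pos hs (by linarith)
  rw [Real.norm_of_nonneg h2.le]
  have h3 : ((s / (1 - s) : ℝ) : ℂ) ≠ 0 := by exact_mod_cast h2.ne'
  field_simp

lemma rc_pol {p : Sph} (h0 : p ≠ z0) (h1 : p ≠ ∞) {s : ℝ} (hs : 0 ≤ s) (hs1 : s ≤ 1) :
    rc (pol p s) = s := by
  rcases hs1.eq_or_lt with rfl | hs1
  · simp
  · rw [pol_of_lt _ hs1, rc_coe, norm_mul, norm_dir h0 h1, mul_one, Complex.norm_real]
    have h2 : 0 ≤ s / (1 - s) := div_nonneg hs (by linarith)
    rw [Real.norm_of_nonneg h2]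
    have h3 : 1 - s ≠ 0 := by linarith
    field_simp
    ring

lemma pol_congr {p p' : Sph} (h : dir p = dir p') (s : ℝ) : pol p s = pol p' s := by
  unfold pol; rw [h]

/-- The function giving the radial coordinate of the cube. -/
def qq (s : ℝ) : ℝ := s ^ 3 / ((1 - s) ^ 3 + s ^ 3)

lemma qq_den (s : ℝ) : 0 < (1 - s) ^ 3 + s ^ 3 := by
  nlinarith [sq_nonneg (s - 1 / 2)]

lemma continuous_qq : Continuous qq := by
  unfold qq
  refine (continuous_pow 3).div (by fun_prop) ?_
  intro s
  nlinarith [sq_nonneg (s - 1 / 2)]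

lemma qq_strictMonoOn : StrictMonoOn qq (Icc 0 1) := by
  intro s hs r hr hsr
  unfold qq
  rw [div_lt_div_iff₀ (qq_den _) (qq_den _)]
  have h1 : s * (1 - r) < r * (1 - s) := by nlinarith
  have h2 : 0 ≤ s * (1 - r) := mul_nonneg hs.1 (by linarith [hr.2])
  have h3 : (s * (1 - r)) ^ 3 < (r * (1 - s)) ^ 3 := by gcongr
  nlinarith

@[simp] lemma qq_zero : qq 0 = 0 := by simp [qq]
@[simp] lemma qq_one : qq 1 = 1 := by simp [qq]
@[simp] lemma qq_half : qq (1 / 2) = 1 / 2 := by norm_num [qq]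

lemma qq_mem {s : ℝ} (hs : 0 ≤ s) (hs1 : s ≤ 1) : 0 ≤ qq s ∧ qq s ≤ 1 := by
  have h := qq_strictMonoOn.monotoneOn
  exact ⟨by simpa using h ⟨le_rfl, zero_le_one⟩ ⟨hs, hs1⟩ hs,
    by simpa using h ⟨hs, hs1⟩ ⟨zero_le_one, le_rfl⟩ hs1⟩

lemma cube_toSph {a b : ℂ} : cube (toSph a b) = toSph (a ^ 3) (b ^ 3) := by
  unfold toSph
  by_cases hb : b = 0
  · simp [hb]
  · rw [if_neg hb, if_neg (pow_ne_zero _ hb), cube_coe, div_pow]

lemma dir_cube (p : Sph) : dir (cube p) = dir p ^ 3 := by
  induction p using OnePoint.rec with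
  | infty => simp
  | coe z => simp [div_pow]

lemma cube_pol (p : Sph) (s : ℝ) : cube (pol p s) = pol (cube p) (qq s) := by
  have hd := qq_den s
  unfold pol
  rw [cube_toSph, dir_cube]
  have h1 : (((1 - s) ^ 3 + s ^ 3 : ℝ) : ℂ) ≠ 0 := by exact_mod_cast hd.ne'
  rw [← toSph_smul (a := (qq s : ℂ) * dir p ^ 3) h1]
  congr 1
  · unfold qq
    push_cast at h1 ⊢
    field_simp
  · unfold qq
    push_cast at h1 ⊢
    field_simp
    ring

lemma continuous_cube : Continuous cube := by
  have h : ∀ p, cube p = toSph ((lift p).1 ^ 3) ((lift p).2 ^ 3) := by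
    intro p
    rw [← cube_toSph, toSph_lift]
  rw [continuous_iff_continuousAt]
  intro p
  have h2 : ∀ᶠ q in 𝓝 p, toSph ((liftAt p q).1 ^ 3) ((liftAt p q).2 ^ 3) = cube q := by
    refine Eventually.of_forall fun q => ?_
    obtain ⟨c, hc, hcc⟩ := liftAt_spec p q
    rw [hcc, h q]
    simp only [mul_pow]
    exact toSph_smul (pow_ne_zero _ hc)
  refine (continuousAt_toSph ((continuousAt_liftAt p).fst.pow 3) ((continuousAt_liftAt p).snd.pow 3)
    ?_).congr h2
  rintro ⟨h3, h4⟩
  have h5 := liftAt_self p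
  have h6 := lift_ne p
  apply h6
  rw [← h5]
  exact Prod.ext (pow_eq_zero_iff (by norm_num) |>.1 h3) (pow_eq_zero_iff (by norm_num) |>.1 h4)

end Pool.Agent.TH230.Aug
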